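import Pool.Agent.Q226.SEN.Proj
import Pool.Agent.Y601.SSE.Ac0

set_option autoImplicit false
set_option linter.unusedSectionVars false

/-!
Randomised nonadaptive reductions of small depth from parity to gap problems.
-/

namespace Pool.Agent.Q226.SEN

open Finset DomAC0 H568R2 Pool.Agent.TH163.AC3 Pool.Agent.Y601

open scoped Classical

variable {T Λ : Type} [Fintype T]

lemma toggle_sse {N : ℕ} (i : Fin N) (x : Fin N → Bool) : SSE.flip i x = toggle i x := by
  funext j
  unfold SSE.flip toggle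
  by_cases h : j = i
  · subst h; simp
  · simp [h]

/-- the constraints destroyed by the changes of the bits in `J` -/
lemma gone_sum_le {N : ℕ} (q : (Fin N → Bool) → T → Bool) (z : Fin N → Bool)
    (J : Finset (Fin N)) {s : ℕ}
    (h : ∀ e, q z e = true → (J.filter fun i => q (toggle i z) e = false).card ≤ s) :
    ∑ i ∈ J, gone (q z) (q (toggle i z)) ≤ s * size (q z) := by
  unfold gone size
  simp_rw [card_filter]
  rw [sum_comm]
  have h1 : ∀ e : T, ∑ i ∈ J, (if q z e = true ∧ q (toggle i z) e = false then 1 else 0) ≤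
      s * if q z e = true then 1 else 0 := by
    intro e
    by_cases hp : q z e = true
    · simp only [hp, true_and, if_true, mul_one]
      rw [← card_filter]
      exact h e hp
    · simp [hp]
  refine (sum_le_sum fun e _ => h1 e).trans ?_
  rw [← mul_sum]

/-- the parameters -/
theorem ac0_core {N k : ℕ} (S : Λ → T → Prop) {a b γ : ℝ} (hb : 0 ≤ b) (hab : b < a)
    {m : ℕ} (hm : 1 ≤ m) {R : Type} [Fintype R] [Nonempty R] (C : R → Circuit (Fin N))
    (out : ∀ ρ, Fin k → T → Fin N ⊕ Fin (C ρ).size) (h M : ℕ)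
    (hM : ∀ ρ, (C ρ).size ≤ M) (hh : ∀ ρ j e, (C ρ).nodeDepth (out ρ j e) ≤ h)
    (hsize : ∀ ρ j x, size (fun e => (C ρ).nodeVal x (out ρ j e)) = m)
    (eval : R → (Fin k → Bool) → Bool)
    (hred : Reduces S a b m (fun ρ j x e => (C ρ).nodeVal x (out ρ j e)) eval γ)
    {s : ℕ} (hs : 1 ≤ s) (hcond : (k : ℝ) * (h * M) * (24 * s) ^ h ≤ γ * (a - b) * 2 ^ (s + 1)) :
    γ * (a - b) * N ≤ k * s * (24 * s) ^ h := by
  obtain ⟨q, hq⟩ : ∃ q : ℝ, q = 1 / (24 * s) := ⟨_, rfl⟩
  have hs0 : (1 : ℝ) ≤ s := by exact_mod_cast hs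
  have hq0 : 0 < q := by rw [hq]; positivity
  have hq1 : q ≤ 1 / 3 := by
    rw [hq, div_le_div_iff₀ (by positivity) (by norm_num)]
    linarith
  have h12 : (12 * s * q : ℝ) = 1 / 2 := by rw [hq]; field_simp; norm_num
  have hqh : 0 < q ^ h := by positivity
  have hinv : q ^ h * (24 * s) ^ h = 1 := by
    rw [← mul_pow, hq]
    have : (1 : ℝ) / (24 * s) * (24 * s) = 1 := by field_simp
    rw [this, one_pow]
  have hR : (0 : ℝ) < Fintype.card R := by exact_mod_cast Fintype.card_pos
  have hmR : (0 : ℝ) < m := by exact_mod_cast hm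
  have hw : ∀ c, 0 ≤ wq (q ^ h) c :=
    wq_nonneg hqh.le (pow_le_one₀ hq0.le (by linarith))
  -- the expectation of the number of stars
  have hstars : Ex (wq (q ^ h)) (fun τ : Restr (Fin N) =>
      ((univ.filter fun i => τ i = none).card : ℝ)) = N * q ^ h := by
    have e1 : (fun τ : Restr (Fin N) => ((univ.filter fun i => τ i = none).card : ℝ)) =
        fun τ : Restr (Fin N) => ∑ i, if τ i = none then (1 : ℝ) else 0 := by
      funext τ
      rw [card_filter]
      push_cast
      rfl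
    rw [e1, Ex_sum univ (wq (q ^ h)) fun i (τ : Restr (Fin N)) =>
      if τ i = none then (1 : ℝ) else 0]
    rw [sum_congr rfl fun i _ => SSE.ex_star (p := q ^ h) i, sum_const, nsmul_eq_mul, card_univ,
      Fintype.card_fin]
  -- one restriction
  have hone : ∀ τ : Restr (Fin N),
      2 * γ * Fintype.card R * (a * m - b * m) * ((univ.filter fun i => τ i = none).card : ℝ) ≤
        Fintype.card R * (k * s * m) +
          ∑ ρ : R, (k * m * N : ℝ) * (if ¬ Shallow (C ρ) s h τ then (1 : ℝ) else 0) := by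
    intro τ
    obtain ⟨J, hJ⟩ : ∃ J : Finset (Fin N), J = univ.filter fun i => τ i = none := ⟨_, rfl⟩
    rw [← hJ]
    obtain ⟨z, hz⟩ : ∃ z : Fin N → Bool, z = ov τ fun _ => false := ⟨_, rfl⟩
    have h1 : ∑ _i ∈ J, 2 * γ * Fintype.card R * (a * m - b * m) ≤
        ∑ i ∈ J, ∑ t : R × Fin k, (gone (fun e => (C t.1).nodeVal z (out t.1 t.2 e))
          (fun e => (C t.1).nodeVal (toggle i z) (out t.1 t.2 e)) : ℝ) :=
      sum_le_sum fun i _ => pair_law S hb hab.le m _ eval γ hsize hred z i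
    rw [sum_const, nsmul_eq_mul, sum_comm, Fintype.sum_prod_type] at h1
    have h2 : ∀ ρ : R, ∑ j : Fin k, ∑ i ∈ J, (gone (fun e => (C ρ).nodeVal z (out ρ j e))
          (fun e => (C ρ).nodeVal (toggle i z) (out ρ j e)) : ℝ) ≤
        k * s * m + (k * m * N : ℝ) * (if ¬ Shallow (C ρ) s h τ then (1 : ℝ) else 0) := by
      intro ρ
      have h3 : ∀ j : Fin k, ∑ i ∈ J, (gone (fun e => (C ρ).nodeVal z (out ρ j e))
          (fun e => (C ρ).nodeVal (toggle i z) (out ρ j e)) : ℝ) ≤
          s * m + (m * N : ℝ) * (if ¬ Shallow (C ρ) s h τ then (1 : ℝ) else 0) := by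
        intro j
        by_cases hS : Shallow (C ρ) s h τ
        · have h4 := gone_sum_le (fun x e => (C ρ).nodeVal x (out ρ j e)) z J (s := s) ?_
          · rw [hsize] at h4
            have h5 : ∑ i ∈ J, (gone (fun e => (C ρ).nodeVal z (out ρ j e))
              (fun e => (C ρ).nodeVal (toggle i z) (out ρ j e)) : ℝ) ≤ s * m := by
              exact_mod_cast h4
            simpa [hS] using h5
          · intro e he
            have h5 := SSE.sens_le (node_dt (C ρ) hs hS (out ρ j e) (hh ρ j e)) J fun _ => false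
            refine le_trans (card_le_card ?_) h5
            intro i hi
            rw [mem_filter] at hi ⊢
            refine ⟨hi.1, ?_⟩
            have hi' : τ i = none := by
              have := hi.1
              rw [hJ, mem_filter] at this
              exact this.2
            show (C ρ).nodeVal (ov τ (SSE.flip i fun _ => false)) (out ρ j e) ≠
              (C ρ).nodeVal (ov τ fun _ => false) (out ρ j e)
            rw [SSE.ov_flip τ i hi', toggle_sse, ← hz]
            have e1 : (C ρ).nodeVal z (out ρ j e) = true := he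
            have e2 : (C ρ).nodeVal (toggle i z) (out ρ j e) = false := hi.2
            rw [e1, e2]
            simp
        · have h4 : ∀ i ∈ J, (gone (fun e => (C ρ).nodeVal z (out ρ j e))
              (fun e => (C ρ).nodeVal (toggle i z) (out ρ j e)) : ℝ) ≤ m := by
            intro i _
            have h5 : gone (fun e => (C ρ).nodeVal z (out ρ j e))
              (fun e => (C ρ).nodeVal (toggle i z) (out ρ j e)) ≤ m := by
              rw [← hsize ρ j z]
              unfold gone size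
              apply card_le_card
              intro e he
              simp only [mem_filter, mem_univ, true_and] at he ⊢
              exact he.1
            exact_mod_cast h5
          have h5 := sum_le_sum h4
          rw [sum_const, nsmul_eq_mul] at h5
          have h6 : (J.card : ℝ) ≤ N := by
            have := card_le_univ J
            rw [Fintype.card_fin] at this
            exact_mod_cast this
          simp only [hS, not_false_iff, if_true, mul_one]
          have h7 : (J.card : ℝ) * m ≤ N * m := mul_le_mul_of_nonneg_right h6 hmR.le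
          have h8 : (0 : ℝ) ≤ s * m := by positivity
          linarith
      refine (sum_le_sum fun j _ => h3 j).trans (le_of_eq ?_)
      rw [sum_const, card_univ, Fintype.card_fin, nsmul_eq_mul]
      ring
    have h3 := h1.trans (sum_le_sum fun ρ _ => h2 ρ)
    rw [sum_add_distrib, sum_const, card_univ, nsmul_eq_mul] at h3
    linarith
  -- the expectation
  have hE := Ex_mono (I := Fin N) hw hone
  rw [Ex_smul, hstars, Ex_add, Ex_const (wq_sum _), Ex_sum] at hE
  have hbad : ∀ ρ : R, Ex (wq (q ^ h)) (fun τ : Restr (Fin N) =>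
      (k * m * N : ℝ) * (if ¬ Shallow (C ρ) s h τ then (1 : ℝ) else 0)) ≤
      (k * m * N : ℝ) * (h * M * (1 / 2) ^ (s + 1)) := by
    intro ρ
    rw [Ex_smul]
    apply mul_le_mul_of_nonneg_left _ (by positivity)
    have h1 := collapse' (C ρ) hq0.le hq1 hs h
    rw [h12] at h1
    refine h1.trans ?_
    have h2 : ((C ρ).size : ℝ) ≤ M := by exact_mod_cast hM ρ
    gcongr
  have hE2 := hE.trans (add_le_add le_rfl (sum_le_sum fun ρ (_ : ρ ∈ univ) => hbad ρ))
  rw [sum_const, card_univ, nsmul_eq_mul] at hE2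
  -- divide by `m * card R`
  have h5 : (2 * (γ * (a - b)) * (N * q ^ h)) * (Fintype.card R * m) ≤
      (k * s + k * N * (h * M * (1 / 2) ^ (s + 1))) * (Fintype.card R * m) := by
    linarith
  have h6 := le_of_mul_le_mul_right h5 (by positivity)
  have h7 : (k : ℝ) * (h * M) * (1 / 2) ^ (s + 1) ≤ γ * (a - b) * q ^ h := by
    have e1 : ((1 : ℝ) / 2) ^ (s + 1) * 2 ^ (s + 1) = 1 := by
      rw [← mul_pow]; norm_num
    have h8 := mul_le_mul_of_nonneg_left hcond
      (show (0 : ℝ) ≤ (1 / 2) ^ (s + 1) * q ^ h by positivity)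
    have e2 : (1 / 2 : ℝ) ^ (s + 1) * q ^ h * (k * (h * M) * (24 * s) ^ h) =
        k * (h * M) * (1 / 2) ^ (s + 1) * (q ^ h * (24 * s) ^ h) := by ring
    have e3 : (1 / 2 : ℝ) ^ (s + 1) * q ^ h * (γ * (a - b) * 2 ^ (s + 1)) =
        γ * (a - b) * q ^ h * ((1 / 2) ^ (s + 1) * 2 ^ (s + 1)) := by ring
    rw [e2, e3, hinv, e1, mul_one, mul_one] at h8
    exact h8
  have hN : (0 : ℝ) ≤ N := Nat.cast_nonneg _
  have h8 : (k : ℝ) * N * (h * M * (1 / 2) ^ (s + 1)) ≤ γ * (a - b) * q ^ h * N := by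
    have := mul_le_mul_of_nonneg_right h7 hN
    linarith
  have h9 : γ * (a - b) * N * q ^ h ≤ k * s := by linarith
  have h10 := mul_le_mul_of_nonneg_right h9 (show (0 : ℝ) ≤ (24 * s) ^ h by positivity)
  rw [mul_assoc (γ * (a - b) * N), hinv, mul_one] at h10
  exact h10

/-- randomised reductions of small depth from parity must be large -/
theorem ac0_main (h : ℕ) : ∃ X0 : ℝ, ∀ {N k m M : ℕ} {T Λ R : Type} [Fintype T] [Fintype R]
    [Nonempty R] (S : Λ → T → Prop) (a b γ : ℝ) (C : R → Circuit (Fin N))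
    (out : ∀ ρ, Fin k → T → Fin N ⊕ Fin (C ρ).size) (eval : R → (Fin k → Bool) → Bool),
    0 ≤ b → b < a → 0 < γ → 1 ≤ m → 1 ≤ k → (∀ ρ, (C ρ).size ≤ M) →
    (∀ ρ j e, (C ρ).nodeDepth (out ρ j e) ≤ h) →
    (∀ ρ j x, size (fun e => (C ρ).nodeVal x (out ρ j e)) = m) →
    Reduces S a b m (fun ρ j x e => (C ρ).nodeVal x (out ρ j e)) eval γ →
    X0 ≤ γ * (a - b) * N / k →
    (2 : ℝ) ^ ((γ * (a - b) * N / k) ^ (1 / (h + 1 : ℝ)) / 100) ≤ k / (γ * (a - b)) * M := by
  obtain ⟨Y0, hY48, hY0⟩ := SSE.exists_large h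
  refine ⟨Y0 ^ (h + 1), ?_⟩
  intro N k m M T Λ R _ _ _ S a b γ C out eval hb hab hγ hm hk hM hh hsize hred hX
  have hkR : (0 : ℝ) < k := by exact_mod_cast hk
  have hκ : 0 < γ * (a - b) := mul_pos hγ (by linarith)
  obtain ⟨X, hXd⟩ : ∃ X : ℝ, X = γ * (a - b) * N / k := ⟨_, rfl⟩
  rw [← hXd] at hX ⊢
  obtain ⟨Y, hYd⟩ : ∃ Y : ℝ, Y = X ^ (1 / (h + 1 : ℝ)) := ⟨_, rfl⟩
  rw [← hYd]
  have hY00 : (0 : ℝ) ≤ Y0 := by linarith
  have hXpos : 0 ≤ X := le_trans (by positivity) hX
  have hYX : Y ^ (h + 1) = X := by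
    rw [hYd, ← Real.rpow_natCast, ← Real.rpow_mul hXpos]
    push_cast
    rw [one_div, inv_mul_cancel₀ (by positivity), Real.rpow_one]
  have hYn : 0 ≤ Y := by rw [hYd]; exact Real.rpow_nonneg hXpos _
  have hYY : Y0 ≤ Y := by
    by_contra hcon
    push Not at hcon
    have := pow_lt_pow_left₀ hcon hYn (Nat.succ_ne_zero h)
    rw [Nat.succ_eq_add_one, hYX] at this
    linarith
  have hY := hY0 Y hYY
  by_contra hcon
  push Not at hcon
  -- the depth of the decision trees
  obtain ⟨s, hs⟩ : ∃ s : ℕ, s = ⌈Y / 24⌉₊ - 1 := ⟨_, rfl⟩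
  have hc1 : Y / 24 ≤ ⌈Y / 24⌉₊ := Nat.le_ceil _
  have hc2 : (⌈Y / 24⌉₊ : ℝ) < Y / 24 + 1 := Nat.ceil_lt_add_one (by positivity)
  have hc3 : 2 ≤ ⌈Y / 24⌉₊ := by
    have : (2 : ℝ) ≤ ⌈Y / 24⌉₊ := le_trans (by linarith) hc1
    exact_mod_cast this
  have hs1 : 1 ≤ s := by omega
  have hsr : (s : ℝ) = ⌈Y / 24⌉₊ - 1 := by
    rw [hs, Nat.cast_sub (by omega), Nat.cast_one]
  have hs2 : 24 * (s : ℝ) < Y := by rw [hsr]; linarith
  have hs3 : Y / 24 - 1 ≤ s := by rw [hsr]; linarith
  have hs0 : (1 : ℝ) ≤ s := by exact_mod_cast hs1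
  have hlt : (24 * (s : ℝ)) ^ (h + 1) < X := by
    rw [← hYX]
    exact pow_lt_pow_left₀ hs2 (by positivity) (Nat.succ_ne_zero h)
  have hcond : (k : ℝ) * (h * M) * (24 * s) ^ h ≤ γ * (a - b) * 2 ^ (s + 1) := by
    have h1 : (k : ℝ) / (γ * (a - b)) * M * (h * (24 * s) ^ h) ≤ 2 ^ (s + 1) := by
      calc (k : ℝ) / (γ * (a - b)) * M * (h * (24 * s) ^ h)
          ≤ 2 ^ (Y / 100) * (h * Y ^ h) := by
            apply mul_le_mul hcon.le _ (by positivity) (by positivity)
            exact mul_le_mul_of_nonneg_left (pow_le_pow_left₀ (by positivity) hs2.le h)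
              (Nat.cast_nonneg _)
        _ = h * Y ^ h * 2 ^ (Y / 100) := by ring
        _ ≤ 2 ^ (Y / 24 - 1) := hY
        _ ≤ (2 : ℝ) ^ (s : ℝ) := Real.rpow_le_rpow_of_exponent_le (by norm_num) hs3
        _ = 2 ^ s := Real.rpow_natCast _ _
        _ ≤ 2 ^ (s + 1) := pow_le_pow_right₀ (by norm_num) (Nat.le_succ s)
    have h2 := mul_le_mul_of_nonneg_left h1 hκ.le
    have h3 : γ * (a - b) * ((k : ℝ) / (γ * (a - b)) * M * (h * (24 * s) ^ h)) =
        (k : ℝ) * (h * M) * (24 * s) ^ h := by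
      have hne : γ * (a - b) ≠ 0 := hκ.ne'
      generalize γ * (a - b) = κ at hne
      field_simp
    rw [h3] at h2
    exact h2
  have hcore := ac0_core S hb hab hm C out h M hM hh hsize eval hred hs1 hcond
  have h1 : X ≤ s * (24 * s) ^ h := by
    rw [hXd, div_le_iff₀ hkR]
    linarith
  have h2 : (s : ℝ) * (24 * s) ^ h ≤ (24 * s) ^ (h + 1) := by
    rw [pow_succ]
    have : (0 : ℝ) ≤ (24 * s) ^ h := by positivity
    nlinarith
  linarith

end Pool.Agent.Q226.SEN
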