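import Pool.Agent.Q226.SEN.Defs

/-! # The sensitivity of reductions to gap problems -/

set_option autoImplicit false

namespace Pool.Agent.Q226.SEN

open Finset
open scoped Classical

variable {N k : ℕ} {T : Type} [Fintype T] {Λ : Type}

lemma toggle_toggle (i : Fin N) (x : Fin N → Bool) : toggle i (toggle i x) = x := by
  unfold toggle
  simp

/-- the involution -/
def toggleE (i : Fin N) : (Fin N → Bool) ≃ (Fin N → Bool) := ⟨toggle i, toggle i, toggle_toggle i, toggle_toggle i⟩

lemma par_toggle (i : Fin N) (x : Fin N → Bool) : par (toggle i x) = !par x := by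
  have h1 : ∀ y : Fin N → Bool, y i = true →
      (univ.filter fun j => y j = true).card =
        (univ.filter fun j => toggle i y j = true).card + 1 := by
    intro y hy
    have h2 : (univ.filter fun j => y j = true) =
        insert i (univ.filter fun j => toggle i y j = true) := by
      ext j
      simp only [mem_filter, mem_univ, true_and, mem_insert]
      unfold toggle
      by_cases hj : j = i
      · subst hj
        simp [hy]
      · rw [Function.update_of_ne hj]
        simp [hj]
    rw [h2, card_insert_of_notMem]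
    simp only [mem_filter, mem_univ, true_and]
    unfold toggle
    simp [hy]
  unfold par
  by_cases hx : x i = true
  · have h2 := h1 x hx
    rw [h2]
    by_cases hp : Odd (univ.filter fun j => toggle i x j = true).card
    · have : ¬ Odd ((univ.filter fun j => toggle i x j = true).card + 1) := by
        rw [Nat.odd_add_one]
        exact fun h => h hp
      simp [hp, this]
    · have : Odd ((univ.filter fun j => toggle i x j = true).card + 1) := by
        rw [Nat.odd_add_one]
        exact hp
      simp [hp, this]
  · have hf : toggle i x i = true := by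
      unfold toggle
      simp at hx
      simp [hx]
    have h2 := h1 (toggle i x) hf
    rw [toggle_toggle] at h2
    rw [h2]
    by_cases hp : Odd (univ.filter fun j => x j = true).card
    · have : ¬ Odd ((univ.filter fun j => x j = true).card + 1) := by
        rw [Nat.odd_add_one]
        exact fun h => h hp
      simp [hp, this]
    · have : Odd ((univ.filter fun j => x j = true).card + 1) := by
        rw [Nat.odd_add_one]
        exact hp
      simp [hp, this]

/-- the number of constraints of `g` which `g'` does not have -/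
noncomputable def gone (g g' : T → Bool) : ℕ :=
  (univ.filter fun e => g e = true ∧ g' e = false).card

lemma size_gone (g g' : T → Bool) : size g + gone g' g = size g' + gone g g' := by
  have h : ∀ a b : T → Bool, size a + gone b a =
      (univ.filter fun e => a e = true ∨ b e = true).card := by
    intro a b
    unfold size gone
    rw [← card_union_of_disjoint]
    · congr 1
      ext e
      simp only [mem_union, mem_filter, mem_univ, true_and]
      cases a e <;> cases b e <;> simp
    · rw [disjoint_left]
      intro e he hq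
      simp only [mem_filter, mem_univ, true_and] at he hq
      rw [he] at hq
      exact absurd hq.2 (by simp)
  rw [h g g', h g' g]
  congr 1
  ext e
  simp only [mem_filter, mem_univ, true_and]
  tauto

/-- the maximal number of satisfied constraints -/
noncomputable def best (S : Λ → T → Prop) (g : T → Bool) : ℕ := sSup (Set.range (sat S g))

lemma sat_le_size (S : Λ → T → Prop) (g : T → Bool) (ℓ : Λ) : sat S g ℓ ≤ size g := by
  unfold sat size
  apply card_le_card
  intro e he
  simp only [mem_filter, mem_univ, true_and] at he ⊢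
  exact he.1

lemma bdd (S : Λ → T → Prop) (g : T → Bool) : BddAbove (Set.range (sat S g)) := by
  refine ⟨size g, ?_⟩
  rintro n ⟨ℓ, rfl⟩
  exact sat_le_size S g ℓ

lemma sat_le_best (S : Λ → T → Prop) (g : T → Bool) (ℓ : Λ) : sat S g ℓ ≤ best S g :=
  le_csSup (bdd S g) ⟨ℓ, rfl⟩

lemma best_le (S : Λ → T → Prop) (g : T → Bool) {c : ℕ} (h : ∀ ℓ, sat S g ℓ ≤ c) :
    best S g ≤ c := by
  apply csSup_le'
  rintro n ⟨ℓ, rfl⟩
  exact h ℓ

lemma best_gone (S : Λ → T → Prop) (g g' : T → Bool) : best S g ≤ best S g' + gone g g' := by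
  apply best_le
  intro ℓ
  refine le_trans ?_ (Nat.add_le_add_right (sat_le_best S g' ℓ) _)
  unfold sat gone
  refine le_trans (card_le_card ?_) (card_union_le _ _)
  intro e he
  simp only [mem_filter, mem_univ, true_and, mem_union] at he ⊢
  by_cases h : g' e = true
  · exact Or.inl ⟨h, he.2⟩
  · exact Or.inr ⟨he.1, by simpa using h⟩

/-- the threshold oracle -/
noncomputable def thr (S : Λ → T → Prop) (θ : ℝ) (g : T → Bool) : Bool :=
  decide (θ ≤ best S g)

lemma thr_consistent (S : Λ → T → Prop) {a b θ : ℝ} {m : ℕ} (hb : 0 ≤ b) (h1 : b * m < θ)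
    (h2 : θ ≤ a * m) : Consistent S a b m (thr S θ) := by
  intro g _
  constructor
  · rintro ⟨ℓ, hℓ⟩
    unfold thr
    rw [decide_eq_true_eq]
    refine h2.trans (hℓ.trans ?_)
    exact_mod_cast sat_le_best S g ℓ
  · intro h
    unfold thr
    rw [decide_eq_false_iff_not, not_le]
    refine lt_of_le_of_lt ?_ h1
    have h3 : best S g ≤ ⌊b * m⌋₊ := by
      apply best_le
      intro ℓ
      exact Nat.le_floor (h ℓ)
    have h4 : ((⌊b * m⌋₊ : ℕ) : ℝ) ≤ b * m := Nat.floor_le (by positivity)
    exact le_trans (by exact_mod_cast h3) h4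

open MeasureTheory in
/-- intervals which cover every point of an interval at least `c` times -/
lemma cover {ι : Type} (s : Finset ι) (l u : ι → ℝ) (hlu : ∀ t ∈ s, l t ≤ u t) {A B c : ℝ}
    (hAB : A ≤ B)
    (h : ∀ θ, A < θ → θ ≤ B → c ≤ ∑ t ∈ s, if l t < θ ∧ θ ≤ u t then (1 : ℝ) else 0) :
    c * (B - A) ≤ ∑ t ∈ s, (u t - l t) := by
  have hind : ∀ t, (fun θ : ℝ => if l t < θ ∧ θ ≤ u t then (1 : ℝ) else 0) =
      (Set.Ioc (l t) (u t)).indicator (fun _ => (1 : ℝ)) := by
    intro t
    funext θ
    rw [Set.indicator_apply]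
    rfl
  have hint : ∀ t ∈ s, IntegrableOn (fun θ : ℝ => if l t < θ ∧ θ ≤ u t then (1 : ℝ) else 0)
      (Set.Ioc A B) volume := by
    intro t _
    rw [hind t]
    apply Integrable.indicator _ measurableSet_Ioc
    exact integrableOn_const (by simp)
  have h1 : ∫ _θ in Set.Ioc A B, c ≤
      ∫ θ in Set.Ioc A B, ∑ t ∈ s, (if l t < θ ∧ θ ≤ u t then (1 : ℝ) else 0) := by
    apply setIntegral_mono_on
    · exact integrableOn_const (by simp)
    · exact integrable_finset_sum s hint
    · exact measurableSet_Ioc
    · intro θ hθ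
      exact h θ hθ.1 hθ.2
  rw [integral_finset_sum s hint] at h1
  have h2 : ∫ _θ in Set.Ioc A B, c = c * (B - A) := by
    rw [setIntegral_const, smul_eq_mul]
    simp [hAB, mul_comm]
  rw [h2] at h1
  refine h1.trans (sum_le_sum fun t ht => ?_)
  rw [hind t, integral_indicator measurableSet_Ioc, setIntegral_const, smul_eq_mul, mul_one]
  rw [measureReal_restrict_apply measurableSet_Ioc]
  refine le_trans (measureReal_mono Set.inter_subset_left (by simp)) ?_
  simp [hlu t ht]

lemma sens_sum (q : (Fin N → Bool) → T → Bool) :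
    ∑ p : (Fin N → Bool) × Fin N, gone (q p.1) (q (toggle p.2 p.1)) =
      ∑ e, sens fun x => q x e := by
  unfold gone sens
  simp_rw [card_filter]
  rw [sum_comm]

/-- The law for one input and one bit. -/
theorem pair_law (S : Λ → T → Prop) {a b : ℝ} (hb : 0 ≤ b) (hab : b ≤ a) (m : ℕ) {R : Type}
    [Fintype R] (query : R → Fin k → (Fin N → Bool) → T → Bool)
    (eval : R → (Fin k → Bool) → Bool) (γ : ℝ)
    (hsize : ∀ ρ j x, size (query ρ j x) = m) (hred : Reduces S a b m query eval γ)
    (x : Fin N → Bool) (i : Fin N) :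
    2 * γ * Fintype.card R * (a * m - b * m) ≤
      ∑ t : R × Fin k, (gone (query t.1 t.2 x) (query t.1 t.2 (toggle i x)) : ℝ) := by
  have hmR : (0 : ℝ) ≤ m := Nat.cast_nonneg _
  have h0 := cover (univ : Finset (R × Fin k))
    (fun t => min (best S (query t.1 t.2 x) : ℝ) (best S (query t.1 t.2 (toggle i x))))
    (fun t => max (best S (query t.1 t.2 x) : ℝ) (best S (query t.1 t.2 (toggle i x))))
    (fun t _ => min_le_max) (A := b * m) (B := a * m) (c := 2 * γ * Fintype.card R)
    (mul_le_mul_of_nonneg_right hab hmR) ?_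
  · refine h0.trans (sum_le_sum fun t _ => ?_)
    rw [max_sub_min_eq_abs, abs_le]
    have e1 := best_gone S (query t.1 t.2 x) (query t.1 t.2 (toggle i x))
    have e2 := best_gone S (query t.1 t.2 (toggle i x)) (query t.1 t.2 x)
    have e3 := size_gone (query t.1 t.2 x) (query t.1 t.2 (toggle i x))
    rw [hsize, hsize] at e3
    have e4 : gone (query t.1 t.2 (toggle i x)) (query t.1 t.2 x) =
        gone (query t.1 t.2 x) (query t.1 t.2 (toggle i x)) := by omega
    rw [e4] at e2
    have e1' : (best S (query t.1 t.2 x) : ℝ) ≤ best S (query t.1 t.2 (toggle i x)) +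
      gone (query t.1 t.2 x) (query t.1 t.2 (toggle i x)) := by exact_mod_cast e1
    have e2' : (best S (query t.1 t.2 (toggle i x)) : ℝ) ≤ best S (query t.1 t.2 x) +
      gone (query t.1 t.2 x) (query t.1 t.2 (toggle i x)) := by exact_mod_cast e2
    constructor <;> linarith
  · intro θ h1 h2
    have hO := thr_consistent S hb h1 h2
    have hx := hred _ hO x
    have hx' := hred _ hO (toggle i x)
    -- the good choices
    set P := univ.filter fun ρ => eval ρ (fun j => thr S θ (query ρ j x)) = par x with hP
    set P' := univ.filter fun ρ => eval ρ (fun j => thr S θ (query ρ j (toggle i x))) =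
      par (toggle i x) with hP'
    have hinter : 2 * γ * Fintype.card R ≤ ((P ∩ P').card : ℝ) := by
      have h3 := card_union_add_card_inter P P'
      have h4 : (P ∪ P').card ≤ Fintype.card R := card_le_univ _
      have h5 : ((P ∪ P').card : ℝ) + (P ∩ P').card = P.card + P'.card := by exact_mod_cast h3
      have h6 : ((P ∪ P').card : ℝ) ≤ Fintype.card R := by exact_mod_cast h4
      linarith
    refine hinter.trans ?_
    rw [Fintype.sum_prod_type]
    rw [← Finset.sum_filter_add_sum_filter_not univ (fun ρ => ρ ∈ P ∩ P')]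
    have h7 : ((P ∩ P').card : ℝ) = ∑ ρ ∈ univ.filter (fun ρ => ρ ∈ P ∩ P'), (1 : ℝ) := by
      rw [sum_const, nsmul_eq_mul, mul_one]
      congr 2
      ext ρ
      simp
    rw [h7]
    have h8 : 0 ≤ ∑ ρ ∈ univ.filter (fun ρ => ρ ∉ P ∩ P'), ∑ j : Fin k,
        (if min (best S (query ρ j x) : ℝ) (best S (query ρ j (toggle i x))) < θ ∧
          θ ≤ max (best S (query ρ j x) : ℝ) (best S (query ρ j (toggle i x))) then (1 : ℝ)
          else 0) := by
      apply sum_nonneg
      intro ρ _
      apply sum_nonneg
      intro j _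
      split_ifs <;> norm_num
    have h9 : ∑ ρ ∈ univ.filter (fun ρ => ρ ∈ P ∩ P'), (1 : ℝ) ≤
        ∑ ρ ∈ univ.filter (fun ρ => ρ ∈ P ∩ P'), ∑ j : Fin k,
        (if min (best S (query ρ j x) : ℝ) (best S (query ρ j (toggle i x))) < θ ∧
          θ ≤ max (best S (query ρ j x) : ℝ) (best S (query ρ j (toggle i x))) then (1 : ℝ)
          else 0) := by
      apply sum_le_sum
      intro ρ hρ
      rw [mem_filter, mem_inter, hP, hP', mem_filter, mem_filter] at hρ
      obtain ⟨_, ⟨_, g1⟩, ⟨_, g2⟩⟩ := hρ
      -- some answer differs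
      obtain ⟨j, hj⟩ : ∃ j, thr S θ (query ρ j x) ≠ thr S θ (query ρ j (toggle i x)) := by
        by_contra hcon
        push Not at hcon
        have h10 : (fun j => thr S θ (query ρ j x)) =
            fun j => thr S θ (query ρ j (toggle i x)) := funext hcon
        rw [h10, g2, par_toggle] at g1
        cases par x <;> simp at g1
      refine le_trans ?_ (single_le_sum (f := fun j =>
        (if min (best S (query ρ j x) : ℝ) (best S (query ρ j (toggle i x))) < θ ∧
          θ ≤ max (best S (query ρ j x) : ℝ) (best S (query ρ j (toggle i x))) then (1 : ℝ)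
          else 0)) (fun j _ => by split_ifs <;> norm_num) (mem_univ j))
      show (1 : ℝ) ≤ if min (best S (query ρ j x) : ℝ) (best S (query ρ j (toggle i x))) < θ ∧
          θ ≤ max (best S (query ρ j x) : ℝ) (best S (query ρ j (toggle i x))) then (1 : ℝ)
          else 0
      rw [if_pos]
      unfold thr at hj
      by_cases g3 : θ ≤ (best S (query ρ j x) : ℝ)
      · have g4 : ¬ θ ≤ (best S (query ρ j (toggle i x)) : ℝ) := by
          intro g5
          exact hj (by simp [g3, g5])
        push Not at g4
        exact ⟨lt_of_le_of_lt (min_le_right _ _) g4, g3.trans (le_max_left _ _)⟩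
      · have g4 : θ ≤ (best S (query ρ j (toggle i x)) : ℝ) := by
          by_contra g5
          exact hj (by simp [g3, g5])
        push Not at g3
        exact ⟨lt_of_le_of_lt (min_le_left _ _) g3, g4.trans (le_max_right _ _)⟩
    have := h9.trans (le_add_of_nonneg_right h8)
    exact this

/-- **The law.** The reduction is sensitive. -/
theorem law (S : Λ → T → Prop) {a b : ℝ} (hb : 0 ≤ b) (hab : b ≤ a) (m : ℕ) {R : Type} [Fintype R]
    (query : R → Fin k → (Fin N → Bool) → T → Bool) (eval : R → (Fin k → Bool) → Bool) (γ : ℝ)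
    (hsize : ∀ ρ j x, size (query ρ j x) = m) (hred : Reduces S a b m query eval γ) :
    2 * γ * (a - b) * N * m * 2 ^ N * Fintype.card R ≤
      ∑ ρ, ∑ j, ∑ e, (sens (fun x => query ρ j x e) : ℝ) := by
  have hmR : (0 : ℝ) ≤ m := Nat.cast_nonneg _
  have hpair : ∀ (x : Fin N → Bool) (i : Fin N),
      2 * γ * Fintype.card R * (a * m - b * m) ≤
        ∑ t : R × Fin k, (gone (query t.1 t.2 x) (query t.1 t.2 (toggle i x)) : ℝ) :=
    fun x i => pair_law S hb hab m query eval γ hsize hred x i
  -- sum over all pairs
  have h1 : ∑ _p : (Fin N → Bool) × Fin N, 2 * γ * Fintype.card R * (a * m - b * m) ≤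
      ∑ p : (Fin N → Bool) × Fin N, ∑ t : R × Fin k,
        (gone (query t.1 t.2 p.1) (query t.1 t.2 (toggle p.2 p.1)) : ℝ) :=
    sum_le_sum fun p _ => hpair p.1 p.2
  rw [sum_const, card_univ, Fintype.card_prod, Fintype.card_fun, Fintype.card_fin,
    Fintype.card_bool, nsmul_eq_mul, sum_comm, Fintype.sum_prod_type] at h1
  have h2 : ∀ ρ (j : Fin k), ∑ p : (Fin N → Bool) × Fin N,
      (gone (query ρ j p.1) (query ρ j (toggle p.2 p.1)) : ℝ) =
      ∑ e, (sens (fun x => query ρ j x e) : ℝ) := by
    intro ρ j
    exact_mod_cast sens_sum (query ρ j)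
  simp only [h2] at h1
  refine le_trans (le_of_eq ?_) h1
  push_cast
  ring

end Pool.Agent.Q226.SEN
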