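import Pool.Agent.Q226.SEN.UG

/-! # Small-set expansion: sensitivity of reductions -/

set_option autoImplicit false

namespace Pool.Agent.Q226.SEN

open Finset
open scoped Classical

variable {N k : ℕ} {V : Type} [Fintype V]

/-- the number of the edges between `S` and its complement -/
noncomputable def cut (G : SimpleGraph V) (S : Finset V) : ℕ :=
  (univ.filter fun p : V × V => p.1 ∈ S ∧ p.2 ∉ S ∧ G.Adj p.1 p.2).card

/-- the graph `G` is `d`-regular -/
def Regular (G : SimpleGraph V) (d : ℕ) : Prop :=
  ∀ v, (univ.filter fun w => G.Adj v w).card = d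

/-- The oracle `O` is right on the `d`-regular graphs with the vertex set `V`: it answers `1` if some
set of `s` vertices has expansion at most `ε`, and `0` if all sets of `s` vertices have expansion at
least `1 - η`; its other answers are arbitrary. -/
def ConsistentSSE (d s : ℕ) (ε η : ℝ) (O : SimpleGraph V → Bool) : Prop :=
  ∀ G, Regular G d → ((∃ S : Finset V, S.card = s ∧ (cut G S : ℝ) ≤ ε * (d * s)) → O G = true) ∧
    ((∀ S : Finset V, S.card = s → (1 - η) * (d * s) ≤ cut G S) → O G = false)

/-- A randomised nonadaptive reduction with advantage `γ` from parity to small-set expansion: the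
queries are the graphs `query ρ j x`, `j < k`, and the output is an arbitrary function `eval ρ` of the
answers; for every right oracle and every input the output is the parity of `x` with probability at
least `1 / 2 + γ` over `ρ`. -/
def ReducesSSE (d s : ℕ) (ε η : ℝ) {R : Type} [Fintype R]
    (query : R → Fin k → (Fin N → Bool) → SimpleGraph V) (eval : R → (Fin k → Bool) → Bool)
    (γ : ℝ) : Prop :=
  ∀ O, ConsistentSSE d s ε η O → ∀ x, (1 / 2 + γ) * Fintype.card R ≤
    ((univ.filter fun ρ => eval ρ (fun j => O (query ρ j x)) = par x).card : ℝ)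

/-- the adjacency matrix -/
noncomputable def adj (G : SimpleGraph V) (p : V × V) : Bool := decide (G.Adj p.1 p.2)

/-- both ends are in the set -/
def Inside (s : ℕ) (S : {S : Finset V // S.card = s}) (p : V × V) : Prop :=
  p.1 ∈ S.1 ∧ p.2 ∈ S.1

lemma size_adj {G : SimpleGraph V} {d : ℕ} (hG : Regular G d) :
    size (adj G) = d * Fintype.card V := by
  unfold size adj
  rw [card_filter, Fintype.sum_prod_type]
  have h1 : ∀ v : V, ∑ w, (if decide (G.Adj v w) = true then 1 else 0) = d := by
    intro v
    rw [← hG v, card_filter]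
    refine sum_congr rfl fun w _ => ?_
    simp
  rw [sum_congr rfl fun v _ => h1 v, sum_const, card_univ, smul_eq_mul, mul_comm]

lemma sat_cut {G : SimpleGraph V} {d s : ℕ} (hG : Regular G d) (S : {S : Finset V // S.card = s}) :
    sat (Inside s) (adj G) S + cut G S.1 = d * s := by
  unfold sat cut adj Inside
  rw [card_filter, card_filter, ← sum_add_distrib]
  refine (sum_congr rfl fun p _ => (?_ : _ =
    if p.1 ∈ S.1 then (if G.Adj p.1 p.2 then 1 else 0) else 0)).trans ?_
  · by_cases h1 : p.1 ∈ S.1 <;> by_cases h2 : p.2 ∈ S.1 <;> by_cases h3 : G.Adj p.1 p.2 <;>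
      simp [h1, h2, h3]
  rw [Fintype.sum_prod_type]
  have h2 : ∀ v : V, ∑ w, (if v ∈ S.1 then (if G.Adj v w then 1 else 0) else 0) =
      if v ∈ S.1 then d else 0 := by
    intro v
    by_cases hv : v ∈ S.1
    · simp only [hv, if_true]
      rw [← hG v, card_filter]
    · simp [hv]
  rw [sum_congr rfl fun v _ => h2 v, ← sum_filter, sum_const, smul_eq_mul]
  have h3 : (univ.filter fun v => v ∈ S.1) = S.1 := by ext v; simp
  rw [h3, S.2, mul_comm]

lemma cut_eq_zero (G : SimpleGraph V) (S : Finset V) :
    cut G S = 0 ↔ ∀ p q, G.Adj p q → p ∈ S → q ∈ S := by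
  unfold cut
  rw [card_eq_zero, filter_eq_empty_iff]
  constructor
  · intro h p q hadj hp
    by_contra hq
    exact h (mem_univ (p, q)) ⟨hp, hq, hadj⟩
  · rintro h ⟨p, q⟩ _ ⟨hp, hq, hadj⟩
    exact hq (h p q hadj hp)

lemma to_reduces {d s : ℕ} {ε η γ : ℝ} (hV : 0 < Fintype.card V) {R : Type} [Fintype R]
    (query : R → Fin k → (Fin N → Bool) → SimpleGraph V) (eval : R → (Fin k → Bool) → Bool)
    (h : ReducesSSE d s ε η query eval γ) :
    Reduces (Inside s) ((1 - ε) * s / Fintype.card V) (η * s / Fintype.card V)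
      (d * Fintype.card V) (fun ρ j x => adj (query ρ j x)) eval γ := by
  intro O hO x
  have hVR : (0 : ℝ) < Fintype.card V := by exact_mod_cast hV
  have hc : ConsistentSSE d s ε η (fun G : SimpleGraph V => O (adj G)) := by
    intro G hG
    have h1 := hO (adj G) (size_adj hG)
    constructor
    · rintro ⟨S, hS, hcut⟩
      apply h1.1
      refine ⟨⟨S, hS⟩, ?_⟩
      have h2 := sat_cut (s := s) hG ⟨S, hS⟩
      have h3 : (sat (Inside s) (adj G) ⟨S, hS⟩ : ℝ) + cut G S = d * s := by exact_mod_cast h2
      push_cast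
      have h4 : (1 - ε) * s / Fintype.card V * (d * Fintype.card V) = (1 - ε) * (d * s) := by
        field_simp
      rw [h4]
      linarith
    · intro hno
      apply h1.2
      intro S
      have h2 := sat_cut (s := s) hG S
      have h3 : (sat (Inside s) (adj G) S : ℝ) + cut G S.1 = d * s := by exact_mod_cast h2
      have h5 := hno S.1 S.2
      push_cast
      have h4 : η * s / Fintype.card V * (d * Fintype.card V) = η * (d * s) := by
        field_simp
      rw [h4]
      linarith
  exact h _ hc x

theorem sse_main {d s : ℕ} {ε η γ : ℝ} (hd : 1 ≤ d) (hη : 0 ≤ η) (hεη : ε + η ≤ 1)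
    (hγ : 0 ≤ γ) (hV : 0 < Fintype.card V) {R : Type} [Fintype R] [Nonempty R]
    (query : R → Fin k → (Fin N → Bool) → SimpleGraph V) (eval : R → (Fin k → Bool) → Bool)
    (hreg : ∀ ρ j x, Regular (query ρ j x) d) (h : ReducesSSE d s ε η query eval γ)
    {κ : ℝ} (hκ : κ = γ * ((1 - ε - η) * (s / Fintype.card V))) :
    2 * κ * N * ((d * Fintype.card V : ℕ) * 2 ^ N * Fintype.card R) ≤
      ∑ ρ, ∑ j, ∑ p : V × V, (sens (fun x => adj (query ρ j x) p) : ℝ) ∧
    (∀ t : ℕ, (∀ ρ j x p, adj (query ρ j x) p = true →
      (univ.filter fun i => adj (query ρ j (toggle i x)) p = false).card ≤ t) →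
      2 * κ * N ≤ k * t) ∧
    ((∀ ρ j p, Unate fun x => adj (query ρ j x) p) →
      2 * κ ^ 2 * N ≤ k ^ 2 * Real.log (Fintype.card V / d)) ∧
    (∀ F : R → Fin k → V × V → Fml N, (∀ ρ j x p, (F ρ j p).val x = adj (query ρ j x) p) →
      4 * κ ^ 2 * N ^ 2 * (d * Fintype.card V : ℕ) * Fintype.card R ≤
        k * ∑ ρ, ∑ j, ∑ p : V × V, ((F ρ j p).leaves : ℝ)) := by
  have hVR : (0 : ℝ) < Fintype.card V := by exact_mod_cast hV
  have hdR : (0 : ℝ) < d := by exact_mod_cast hd
  have hred := to_reduces hV query eval h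
  have hm : 1 ≤ d * Fintype.card V := Nat.mul_pos hd hV
  have hsize : ∀ ρ j x, size ((fun ρ j x => adj (query ρ j x)) ρ j x) = d * Fintype.card V :=
    fun ρ j x => size_adj (hreg ρ j x)
  have hb : 0 ≤ η * s / Fintype.card V := by positivity
  have hab : η * s / Fintype.card V ≤ (1 - ε) * s / Fintype.card V := by
    apply div_le_div_of_nonneg_right _ hVR.le
    apply mul_le_mul_of_nonneg_right _ (Nat.cast_nonneg _)
    linarith
  have hdiff : γ * ((1 - ε) * s / Fintype.card V - η * s / Fintype.card V) = κ := by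
    rw [hκ]
    ring
  refine ⟨?_, ?_, ?_, ?_⟩
  · have h1 := law _ hb hab _ _ eval γ hsize hred
    refine le_trans (le_of_eq ?_) h1
    rw [← hdiff]
    ring
  · intro t ht
    have h1 := few_main _ hb hab hm _ eval γ hsize hred t ht
    rw [← hdiff]
    linarith
  · intro hu
    have h1 := unate_main _ hb hab hm _ eval γ hγ hsize hred hu
    rw [hdiff] at h1
    have h2 : (Fintype.card (V × V) : ℝ) / ((d * Fintype.card V : ℕ) : ℝ) =
        Fintype.card V / d := by
      rw [Fintype.card_prod]
      push_cast
      field_simp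
    rw [h2] at h1
    exact h1
  · intro F hF
    have h1 := fml_main _ hb hab hm _ eval γ hγ hsize hred F hF
    rw [hdiff] at h1
    exact h1

/-! ### Without a gap -/

/-- the graph: a double cover of a cycle -/
def dbl {n : ℕ} (hn : 2 ≤ n) (x : Fin (n + 1) → Bool) : SimpleGraph (Fin (n + 1) × ZMod 2) where
  Adj p q := (q.1 = finRotate (n + 1) p.1 ∧ q.2 = p.2 + bz (x p.1)) ∨
    (p.1 = finRotate (n + 1) q.1 ∧ p.2 = q.2 + bz (x q.1))
  symm := ⟨fun _ _ h => h.symm⟩
  loopless := ⟨fun p h => by
    have h1 : p.1 = finRotate (n + 1) p.1 := by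
      rcases h with h | h
      · exact h.1
      · exact h.1
    by_cases hl : p.1 = Fin.last n
    · rw [hl, finRotate_last] at h1
      have := congrArg Fin.val h1
      simp at this
      omega
    · have h2 := congrArg Fin.val h1
      rw [coe_finRotate_of_ne_last hl] at h2
      omega⟩

lemma rot_rot_ne {n : ℕ} (hn : 2 ≤ n) (j : Fin (n + 1)) :
    finRotate (n + 1) (finRotate (n + 1) j) ≠ j := by
  intro h
  by_cases hl : j = Fin.last n
  · subst hl
    rw [finRotate_last] at h
    have h0 : (0 : Fin (n + 1)) ≠ Fin.last n := by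
      intro h1
      have := congrArg Fin.val h1
      simp at this
      omega
    have h2 := congrArg Fin.val h
    rw [coe_finRotate_of_ne_last h0] at h2
    simp at h2
    omega
  · by_cases hl2 : finRotate (n + 1) j = Fin.last n
    · have e1 := congrArg Fin.val hl2
      rw [coe_finRotate_of_ne_last hl] at e1
      rw [hl2, finRotate_last] at h
      have e2 := congrArg Fin.val h
      simp at e1 e2
      omega
    · have e1 := congrArg Fin.val h
      rw [coe_finRotate_of_ne_last hl2, coe_finRotate_of_ne_last hl] at e1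
      omega

/-- the formulas for the adjacency matrix -/
noncomputable def dblF {n : ℕ} (p : (Fin (n + 1) × ZMod 2) × (Fin (n + 1) × ZMod 2)) :
    Fml (n + 1) :=
  if p.2.1 = finRotate (n + 1) p.1.1 then .lit p.1.1 (decide (p.2.2 = p.1.2 + 1))
  else if p.1.1 = finRotate (n + 1) p.2.1 then .lit p.2.1 (decide (p.1.2 = p.2.2 + 1))
  else .const false

lemma bz_lit (c c' : ZMod 2) (b : Bool) : (b == decide (c' = c + 1)) = decide (c' = c + bz b) := by
  revert c c' b
  decide

lemma dblF_val {n : ℕ} (hn : 2 ≤ n) (x : Fin (n + 1) → Bool)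
    (p : (Fin (n + 1) × ZMod 2) × (Fin (n + 1) × ZMod 2)) :
    (dblF p).val x = adj (dbl hn x) p := by
  unfold dblF adj
  by_cases h1 : p.2.1 = finRotate (n + 1) p.1.1
  · rw [if_pos h1]
    have h2 : ¬ p.1.1 = finRotate (n + 1) p.2.1 := by
      intro h
      rw [h1] at h
      exact rot_rot_ne hn _ h.symm
    have h3 : (dbl hn x).Adj p.1 p.2 ↔ p.2.2 = p.1.2 + bz (x p.1.1) := by
      constructor
      · rintro (h | h)
        · exact h.2
        · exact absurd h.1 h2
      · intro h
        exact Or.inl ⟨h1, h⟩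
    show (x p.1.1 == decide (p.2.2 = p.1.2 + 1)) = _
    rw [bz_lit]
    exact (decide_eq_decide.mpr h3).symm
  · rw [if_neg h1]
    by_cases h2 : p.1.1 = finRotate (n + 1) p.2.1
    · rw [if_pos h2]
      have h3 : (dbl hn x).Adj p.1 p.2 ↔ p.1.2 = p.2.2 + bz (x p.2.1) := by
        constructor
        · rintro (h | h)
          · exact absurd h.1 h1
          · exact h.2
        · intro h
          exact Or.inr ⟨h2, h⟩
      show (x p.2.1 == decide (p.1.2 = p.2.2 + 1)) = _
      rw [bz_lit]
      exact (decide_eq_decide.mpr h3).symm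
    · rw [if_neg h2]
      have h3 : ¬ (dbl hn x).Adj p.1 p.2 := by
        rintro (h | h)
        · exact h1 h.1
        · exact h2 h.1
      show false = _
      rw [eq_comm, decide_eq_false_iff_not]
      exact h3

lemma dblF_leaves {n : ℕ} (p : (Fin (n + 1) × ZMod 2) × (Fin (n + 1) × ZMod 2)) :
    (dblF p).leaves ≤ 1 := by
  unfold dblF
  split_ifs <;> simp [Fml.leaves]

lemma dbl_regular {n : ℕ} (hn : 2 ≤ n) (x : Fin (n + 1) → Bool) : Regular (dbl hn x) 2 := by
  intro p
  have h1 : (univ.filter fun w => (dbl hn x).Adj p w) =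
      {(finRotate (n + 1) p.1, p.2 + bz (x p.1)),
        ((finRotate (n + 1)).symm p.1, p.2 + bz (x ((finRotate (n + 1)).symm p.1)))} := by
    ext q
    simp only [mem_filter, mem_univ, true_and, mem_insert, mem_singleton]
    constructor
    · rintro (h | h)
      · exact Or.inl (Prod.ext h.1 h.2)
      · right
        have e1 : q.1 = (finRotate (n + 1)).symm p.1 := by
          rw [h.1, Equiv.symm_apply_apply]
        refine Prod.ext e1 ?_
        show q.2 = p.2 + bz (x ((finRotate (n + 1)).symm p.1))
        rw [← e1, h.2]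
        have h2 : ∀ a b : ZMod 2, a = a + b + b := by decide
        exact h2 _ _
    · rintro (h | h)
      · rw [h]
        exact Or.inl ⟨rfl, rfl⟩
      · rw [h]
        refine Or.inr ⟨(Equiv.apply_symm_apply _ _).symm, ?_⟩
        have h2 : ∀ a b : ZMod 2, a = a + b + b := by decide
        exact h2 _ _
  rw [h1, card_pair]
  intro h
  have h2 := congrArg Prod.fst h
  have h3 : finRotate (n + 1) p.1 = (finRotate (n + 1)).symm p.1 := h2
  have h4 := congrArg (finRotate (n + 1)) h3
  rw [Equiv.apply_symm_apply] at h4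
  exact rot_rot_ne hn _ h4

/-- potentials on the cycle -/
lemma potential {n : ℕ} (x : Fin (n + 1) → Bool) :
    par x = false ↔ ∃ L : Fin (n + 1) → ZMod 2, ∀ j, L (finRotate (n + 1) j) = L j + bz (x j) := by
  constructor
  · intro hx
    have h0 : ∑ j, bz (x j) = 0 := by
      have h2 : ¬ ∑ j, bz (x j) = 1 := by
        rw [← par_iff, hx]
        simp
      have h1 : ∀ z : ZMod 2, z ≠ 1 → z = 0 := by decide
      exact h1 _ h2
    refine ⟨fun j => ∑ i ∈ univ.filter (fun i => i < j), bz (x i), ?_⟩
    intro j
    have h2 : (∑ i ∈ univ.filter (fun i => i < j), bz (x i)) + bz (x j) =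
        ∑ i ∈ univ.filter (fun i => i ≤ j), bz (x i) := by
      have h3 : (univ.filter fun i : Fin (n + 1) => i ≤ j) =
          insert j (univ.filter fun i => i < j) := by
        ext i
        simp only [mem_filter, mem_univ, true_and, mem_insert]
        rw [le_iff_lt_or_eq]
        tauto
      rw [h3, sum_insert (by simp), add_comm]
    show ∑ i ∈ univ.filter (fun i => i < finRotate (n + 1) j), bz (x i) =
      (∑ i ∈ univ.filter (fun i => i < j), bz (x i)) + bz (x j)
    rw [h2]
    by_cases hj : j = Fin.last n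
    · subst hj
      rw [finRotate_last]
      have h3 : (univ.filter fun i : Fin (n + 1) => i ≤ Fin.last n) = univ := by
        ext i
        simp [Fin.le_last]
      rw [h3, h0]
      apply sum_eq_zero
      intro i hi
      rw [mem_filter] at hi
      exact absurd hi.2 (Fin.not_lt_zero i)
    · refine sum_congr ?_ fun _ _ => rfl
      ext i
      simp only [mem_filter, mem_univ, true_and]
      rw [Fin.lt_def, coe_finRotate_of_ne_last hj, Fin.le_def]
      omega
  · rintro ⟨L, hL⟩
    by_contra hcon
    have hx : par x = true := by simpa using hcon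
    rw [par_iff] at hx
    have h5 : ∑ j, L (finRotate (n + 1) j) = ∑ j, L j := Equiv.sum_comp (finRotate (n + 1)) L
    rw [sum_congr rfl fun j _ => hL j, sum_add_distrib, hx] at h5
    have h6 : ∀ z : ZMod 2, z + 1 ≠ z := by decide
    exact h6 _ h5

theorem dbl_cut {n : ℕ} (hn : 2 ≤ n) (x : Fin (n + 1) → Bool) :
    par x = false ↔ ∃ S : Finset (Fin (n + 1) × ZMod 2), S.card = n + 1 ∧ cut (dbl hn x) S = 0 := by
  rw [potential]
  constructor
  · rintro ⟨L, hL⟩
    refine ⟨univ.image fun j => (j, L j), ?_, ?_⟩
    · rw [card_image_of_injective _ (fun a b h => congrArg Prod.fst h), card_univ, Fintype.card_fin]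
    · rw [cut_eq_zero]
      intro p q hadj hp
      rw [mem_image] at hp
      obtain ⟨j, _, hj⟩ := hp
      rw [mem_image]
      rcases hadj with h | h
      · refine ⟨q.1, mem_univ _, Prod.ext rfl ?_⟩
        show L q.1 = q.2
        have e1 := congrArg Prod.fst hj
        have e2 := congrArg Prod.snd hj
        simp only at e1 e2
        have h1 : q.1 = finRotate (n + 1) p.1 := h.1
        have h2 : q.2 = p.2 + bz (x p.1) := h.2
        rw [h1, h2, ← e1, ← e2, hL]
      · refine ⟨q.1, mem_univ _, Prod.ext rfl ?_⟩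
        show L q.1 = q.2
        have e1 := congrArg Prod.fst hj
        have e2 := congrArg Prod.snd hj
        simp only at e1 e2
        have h1 : p.1 = finRotate (n + 1) q.1 := h.1
        have h2 : p.2 = q.2 + bz (x q.1) := h.2
        have h3 := hL q.1
        rw [← h1, ← e1, e2, h2] at h3
        exact (add_right_cancel h3).symm
  · rintro ⟨S, hS, hcut⟩
    -- `S` is closed
    have hclosed : ∀ p q, (dbl hn x).Adj p q → p ∈ S → q ∈ S := (cut_eq_zero _ _).1 hcut
    have hstep : ∀ j (c : ZMod 2), (j, c) ∈ S ↔ (finRotate (n + 1) j, c + bz (x j)) ∈ S := by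
      intro j c
      constructor
      · intro h
        exact hclosed _ _ (Or.inl ⟨rfl, rfl⟩) h
      · intro h
        exact hclosed _ _ (Or.inr ⟨rfl, rfl⟩) h
    -- the number of elements over `j`
    obtain ⟨a, ha⟩ : ∃ a : Fin (n + 1) → ℕ, a = fun j => (univ.filter fun c => (j, c) ∈ S).card :=
      ⟨_, rfl⟩
    have hrot : ∀ j, a (finRotate (n + 1) j) = a j := by
      intro j
      rw [ha]
      show (univ.filter fun c => (finRotate (n + 1) j, c) ∈ S).card =
        (univ.filter fun c => (j, c) ∈ S).card
      symm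
      refine card_bij' (fun c _ => c + bz (x j)) (fun c _ => c - bz (x j)) ?_ ?_ ?_ ?_
      · intro c hc
        rw [mem_filter] at hc ⊢
        exact ⟨mem_univ _, (hstep j c).1 hc.2⟩
      · intro c hc
        rw [mem_filter] at hc ⊢
        refine ⟨mem_univ _, (hstep j _).2 ?_⟩
        rw [sub_add_cancel]
        exact hc.2
      · intro c _
        exact add_sub_cancel_right _ _
      · intro c _
        exact sub_add_cancel _ _
    have hconst : ∀ j, a j = a 0 := by
      intro j
      induction j using Fin.induction with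
      | zero => rfl
      | succ i ih =>
        have h1 : finRotate (n + 1) i.castSucc = i.succ := by
          apply Fin.ext
          rw [coe_finRotate_of_ne_last (Fin.castSucc_lt_last i).ne]
          simp
        rw [← h1, hrot, ih]
    have hsum : ∑ j, a j = n + 1 := by
      have h1 : S.card = ∑ j, a j := by
        rw [ha]
        simp only [card_filter]
        rw [← Fintype.sum_prod_type (fun p : Fin (n + 1) × ZMod 2 =>
          if (p.1, p.2) ∈ S then 1 else 0), ← card_filter]
        congr 1
        ext p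
        simp
      rw [← h1]
      exact hS
    rw [sum_congr rfl fun j _ => hconst j, sum_const, card_univ, Fintype.card_fin, smul_eq_mul]
      at hsum
    have ha0 : a 0 = 1 := by
      have : (n + 1) * a 0 = (n + 1) * 1 := by omega
      exact Nat.eq_of_mul_eq_mul_left (by omega) this
    have hone : ∀ j, ∃ c, (univ.filter fun c => (j, c) ∈ S) = {c} := by
      intro j
      have h1 : a j = 1 := by rw [hconst, ha0]
      rw [ha] at h1
      exact card_eq_one.mp h1
    choose L hL using hone
    refine ⟨L, fun j => ?_⟩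
    have h1 : (j, L j) ∈ S := by
      have : L j ∈ (univ.filter fun c => (j, c) ∈ S) := by rw [hL]; simp
      exact (mem_filter.mp this).2
    have h2 := (hstep j (L j)).1 h1
    have h3 : L j + bz (x j) ∈ (univ.filter fun c => (finRotate (n + 1) j, c) ∈ S) :=
      mem_filter.mpr ⟨mem_univ _, h2⟩
    rw [hL, mem_singleton] at h3
    exact h3.symm

/-- the reduction without a gap -/
theorem sse_no_gap (n : ℕ) (hn : 2 ≤ n) :
    ∃ (V : Type) (_ : Fintype V) (G : (Fin (n + 1) → Bool) → SimpleGraph V)
      (F : V × V → Fml (n + 1)),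
      Fintype.card V = 2 * (n + 1) ∧ (∀ x, Regular (G x) 2) ∧
      (∀ x p, (F p).val x = adj (G x) p) ∧ (∀ p, (F p).leaves ≤ 1) ∧
      ∀ x, par x = false ↔ ∃ S : Finset V, S.card = n + 1 ∧ cut (G x) S = 0 := by
  refine ⟨Fin (n + 1) × ZMod 2, inferInstance, dbl hn, dblF, ?_, dbl_regular hn,
    fun x p => dblF_val hn x p, dblF_leaves, fun x => dbl_cut hn x⟩
  rw [Fintype.card_prod, Fintype.card_fin, ZMod.card, mul_comm]

end Pool.Agent.Q226.SEN
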