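import Pool.Agent.Q226.SEN.Law

/-! # Upper bounds for the sensitivity: few sensitive bits, unate functions, formulas -/

set_option autoImplicit false

namespace Pool.Agent.Q226.SEN

open Finset
open scoped Classical

variable {N k : ℕ} {T : Type} [Fintype T] {Λ : Type}

/-- the number of ones -/
noncomputable def ones (b : (Fin N → Bool) → Bool) : ℕ := (univ.filter fun x => b x = true).card

lemma sum_ones (q : (Fin N → Bool) → T → Bool) {m : ℕ} (h : ∀ x, size (q x) = m) :
    ∑ e, ones (fun x => q x e) = m * 2 ^ N := by
  unfold ones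
  simp_rw [card_filter]
  rw [sum_comm]
  have h1 : ∀ x, ∑ e, (if q x e = true then 1 else 0) = m := by
    intro x
    rw [← card_filter]
    exact h x
  rw [sum_congr rfl fun x _ => h1 x, sum_const, card_univ, Fintype.card_fun, Fintype.card_fin,
    Fintype.card_bool, smul_eq_mul, mul_comm]

lemma sens_eq (b : (Fin N → Bool) → Bool) :
    sens b = ∑ x ∈ univ.filter (fun x => b x = true),
      (univ.filter fun i => b (toggle i x) = false).card := by
  unfold sens
  rw [card_filter, Fintype.sum_prod_type, sum_filter]
  refine sum_congr rfl fun x _ => ?_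
  by_cases h : b x = true
  · rw [if_pos h, card_filter]
    refine sum_congr rfl fun i _ => ?_
    simp [h]
  · rw [if_neg h]
    apply sum_eq_zero
    intro i _
    rw [if_neg]
    exact fun h' => h h'.1

/-- few sensitive bits -/
lemma sens_le_few (b : (Fin N → Bool) → Bool) {s : ℕ}
    (h : ∀ x, b x = true → (univ.filter fun i => b (toggle i x) = false).card ≤ s) :
    sens b ≤ s * ones b := by
  rw [sens_eq]
  unfold ones
  refine (sum_le_sum fun x hx => h x (mem_filter.mp hx).2).trans ?_
  rw [sum_const, smul_eq_mul, mul_comm]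

/-- the sign: `1` if the bit has the preferred value -/
def sg (σ x : Fin N → Bool) (i : Fin N) : ℝ := if x i = σ i then 1 else -1

lemma sg_toggle (σ x : Fin N → Bool) (i : Fin N) : sg σ (toggle i x) i = -sg σ x i := by
  unfold sg toggle
  rw [Function.update_self]
  cases h1 : x i <;> cases h2 : σ i <;> simp

lemma sens_unate_aux {b : (Fin N → Bool) → Bool} {σ : Fin N → Bool}
    (h : ∀ x i, x i ≠ σ i → b x = true → b (toggle i x) = true) (i : Fin N) :
    ∑ x ∈ univ.filter (fun x => b x = true), sg σ x i =
      ((univ.filter fun x => b x = true ∧ b (toggle i x) = false).card : ℝ) := by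
  -- split into the boundary and the rest
  have h1 : ∑ x ∈ univ.filter (fun x => b x = true ∧ b (toggle i x) = true), sg σ x i = 0 := by
    have h2 : ∑ x ∈ univ.filter (fun x => b x = true ∧ b (toggle i x) = true), sg σ x i =
        ∑ x ∈ univ.filter (fun x => b x = true ∧ b (toggle i x) = true), sg σ (toggle i x) i := by
      refine sum_nbij' (fun x => toggle i x) (fun x => toggle i x) ?_ ?_ ?_ ?_ ?_
      · intro x hx
        rw [mem_filter] at hx ⊢
        rw [toggle_toggle]
        exact ⟨mem_univ _, hx.2.2, hx.2.1⟩
      · intro x hx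
        rw [mem_filter] at hx ⊢
        rw [toggle_toggle]
        exact ⟨mem_univ _, hx.2.2, hx.2.1⟩
      · intro x _
        exact toggle_toggle i x
      · intro x _
        exact toggle_toggle i x
      · intro x _
        rw [toggle_toggle]
    have h3 : ∑ x ∈ univ.filter (fun x => b x = true ∧ b (toggle i x) = true), sg σ (toggle i x) i =
        -∑ x ∈ univ.filter (fun x => b x = true ∧ b (toggle i x) = true), sg σ x i := by
      rw [← sum_neg_distrib]
      exact sum_congr rfl fun x _ => sg_toggle σ x i
    linarith
  have h2 : ∑ x ∈ univ.filter (fun x => b x = true), sg σ x i =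
      ∑ x ∈ univ.filter (fun x => b x = true ∧ b (toggle i x) = true), sg σ x i +
      ∑ x ∈ univ.filter (fun x => b x = true ∧ b (toggle i x) = false), sg σ x i := by
    rw [← sum_union]
    · refine sum_congr ?_ fun _ _ => rfl
      ext x
      simp only [mem_filter, mem_univ, true_and, mem_union]
      cases b (toggle i x) <;> simp
    · rw [disjoint_left]
      intro x hx hx'
      rw [mem_filter] at hx hx'
      rw [hx.2.2] at hx'
      exact absurd hx'.2.2 (by simp)
  rw [h2, h1, zero_add]
  have h3 : ∀ x ∈ univ.filter (fun x => b x = true ∧ b (toggle i x) = false), sg σ x i = 1 := by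
    intro x hx
    rw [mem_filter] at hx
    unfold sg
    by_cases h4 : x i = σ i
    · rw [if_pos h4]
    · exfalso
      have := h x i h4 hx.2.1
      rw [hx.2.2] at this
      exact absurd this (by simp)
  rw [sum_congr rfl h3, sum_const, nsmul_eq_mul, mul_one]

/-- the sensitivity of a unate function as a sum of signs -/
lemma sens_unate {b : (Fin N → Bool) → Bool} {σ : Fin N → Bool}
    (h : ∀ x i, x i ≠ σ i → b x = true → b (toggle i x) = true) :
    (sens b : ℝ) = ∑ x ∈ univ.filter (fun x => b x = true), ∑ i, sg σ x i := by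
  rw [sum_comm]
  simp only [sens_unate_aux h]
  unfold sens
  rw [card_filter, Fintype.sum_prod_type, sum_comm]
  push_cast
  refine sum_congr rfl fun i _ => ?_
  rw [card_filter]
  push_cast
  rfl

/-- the exponential moment -/
lemma exp_moment (σ : Fin N → Bool) (t : ℝ) :
    ∑ x : Fin N → Bool, Real.exp (t * ∑ i, sg σ x i) ≤ 2 ^ N * Real.exp (t ^ 2 * N / 2) := by
  have h1 : ∀ x : Fin N → Bool, Real.exp (t * ∑ i, sg σ x i) =
      ∏ i, (fun (i : Fin N) (c : Bool) => Real.exp (t * if c = σ i then 1 else -1)) i (x i) := by
    intro x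
    rw [mul_sum, Real.exp_sum]
    rfl
  have h3 := Finset.prod_univ_sum (fun _ : Fin N => (univ : Finset Bool))
      (fun (i : Fin N) (c : Bool) => Real.exp (t * if c = σ i then 1 else -1))
  rw [Fintype.piFinset_univ] at h3
  rw [sum_congr rfl fun x _ => h1 x, ← h3]
  have h2 : ∀ i : Fin N, ∑ c : Bool, Real.exp (t * if c = σ i then 1 else -1) =
      2 * Real.cosh t := by
    intro i
    rw [Fintype.sum_bool, Real.cosh_eq]
    cases σ i
    · simp
      ring
    · simp
      ring
  rw [prod_congr rfl fun i _ => h2 i, prod_const, card_univ, Fintype.card_fin, mul_pow]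
  apply mul_le_mul_of_nonneg_left _ (by positivity)
  calc Real.cosh t ^ N ≤ Real.exp (t ^ 2 / 2) ^ N :=
        pow_le_pow_left₀ (by positivity) (Real.cosh_le_exp_half_sq t) N
    _ = Real.exp (t ^ 2 * N / 2) := by
        rw [← Real.exp_nat_mul]
        congr 1
        ring

/-- the Gibbs inequality for one unate function -/
lemma unate_gibbs {b : (Fin N → Bool) → Bool} (h : Unate b) {t : ℝ} (ht : 0 ≤ t) (K : ℝ) :
    t * sens b ≤ K * ones b + 2 ^ N * Real.exp (t ^ 2 * N / 2 - K - 1) := by
  obtain ⟨σ, hσ⟩ := h
  have _ := ht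
  rw [sens_unate hσ, mul_sum]
  have h1 : ∀ x ∈ univ.filter (fun x => b x = true), t * ∑ i, sg σ x i ≤
      K + Real.exp (t * ∑ i, sg σ x i - K - 1) := by
    intro x _
    have := Real.add_one_le_exp (t * ∑ i, sg σ x i - K - 1)
    linarith
  refine (sum_le_sum h1).trans ?_
  rw [sum_add_distrib, sum_const, nsmul_eq_mul]
  unfold ones
  rw [mul_comm K]
  refine add_le_add le_rfl ?_
  calc ∑ x ∈ univ.filter (fun x => b x = true), Real.exp (t * ∑ i, sg σ x i - K - 1)
      ≤ ∑ x, Real.exp (t * ∑ i, sg σ x i - K - 1) :=
        sum_le_sum_of_subset_of_nonneg (filter_subset _ _) fun _ _ _ => (Real.exp_pos _).le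
    _ = (∑ x, Real.exp (t * ∑ i, sg σ x i)) * Real.exp (-K - 1) := by
        rw [sum_mul]
        refine sum_congr rfl fun x _ => ?_
        rw [← Real.exp_add]
        congr 1
        ring
    _ ≤ 2 ^ N * Real.exp (t ^ 2 * N / 2) * Real.exp (-K - 1) :=
        mul_le_mul_of_nonneg_right (exp_moment σ t) (Real.exp_pos _).le
    _ = 2 ^ N * Real.exp (t ^ 2 * N / 2 - K - 1) := by
        rw [mul_assoc, ← Real.exp_add]
        congr 2
        ring

/-- the sensitivity of a family of unate functions with `m` ones on every input -/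
lemma unate_sum (q : (Fin N → Bool) → T → Bool) {m : ℕ} (hm : 1 ≤ m) (h : ∀ x, size (q x) = m)
    (hu : ∀ e, Unate fun x => q x e) {t : ℝ} (ht : 0 ≤ t) :
    t * ∑ e, (sens (fun x => q x e) : ℝ) ≤
      (Real.log (Fintype.card T / m) + t ^ 2 * N / 2) * (m * 2 ^ N) := by
  have hmR : (0 : ℝ) < m := by exact_mod_cast hm
  have hT : (m : ℝ) ≤ Fintype.card T := by
    have h1 : size (q fun _ => true) ≤ Fintype.card T := card_le_univ _
    rw [h] at h1
    exact_mod_cast h1
  have hTpos : (0 : ℝ) < Fintype.card T := lt_of_lt_of_le hmR hT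
  set K : ℝ := Real.log (Fintype.card T / m) + t ^ 2 * N / 2 - 1 with hK
  rw [mul_sum]
  have h1 : ∑ e, t * (sens (fun x => q x e) : ℝ) ≤
      ∑ e : T, (K * (ones (fun x => q x e) : ℝ) + 2 ^ N * Real.exp (t ^ 2 * N / 2 - K - 1)) :=
    sum_le_sum fun e _ => unate_gibbs (hu e) ht K
  refine h1.trans (le_of_eq ?_)
  rw [sum_add_distrib, ← mul_sum, sum_const, card_univ, nsmul_eq_mul]
  have h2 : ∑ e, (ones (fun x => q x e) : ℝ) = m * 2 ^ N := by exact_mod_cast sum_ones q h
  rw [h2]
  have h3 : Real.exp (t ^ 2 * N / 2 - K - 1) = m / Fintype.card T := by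
    have h4 : t ^ 2 * N / 2 - K - 1 = -Real.log (Fintype.card T / m) := by rw [hK]; ring
    rw [h4, Real.exp_neg, Real.exp_log (by positivity), inv_div]
  rw [h3, hK]
  field_simp
  ring

/-- the pairs between two sets -/
noncomputable def edges (A B : Finset (Fin N → Bool)) : ℕ :=
  ((A ×ˢ (univ : Finset (Fin N))).filter fun p => toggle p.2 p.1 ∈ B).card

lemma edges_union_left (A A' B : Finset (Fin N → Bool)) (h : Disjoint A A') :
    edges (A ∪ A') B = edges A B + edges A' B := by
  unfold edges
  rw [union_product, filter_union, card_union_of_disjoint]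
  rw [disjoint_left]
  intro p hp hp'
  rw [mem_filter, mem_product] at hp hp'
  exact disjoint_left.mp h hp.1.1 hp'.1.1

lemma edges_union_right (A B B' : Finset (Fin N → Bool)) (h : Disjoint B B') :
    edges A (B ∪ B') = edges A B + edges A B' := by
  unfold edges
  rw [← card_union_of_disjoint]
  · congr 1
    ext p
    simp only [mem_filter, mem_union]
    tauto
  · rw [disjoint_left]
    intro p hp hp'
    rw [mem_filter] at hp hp'
    exact disjoint_left.mp h hp.2 hp'.2

lemma cs {e1 e2 l1 l2 a1 a2 b : ℝ} (h1 : e1 ^ 2 ≤ l1 * a1 * b) (h2 : e2 ^ 2 ≤ l2 * a2 * b)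
    (hl1 : 0 ≤ l1) (hl2 : 0 ≤ l2) (ha1 : 0 ≤ a1) (ha2 : 0 ≤ a2) (hb : 0 ≤ b) :
    (e1 + e2) ^ 2 ≤ (l1 + l2) * (a1 + a2) * b := by
  have h3 : (2 * (e1 * e2)) ^ 2 ≤ (l1 * a2 * b + l2 * a1 * b) ^ 2 := by
    have h4 : (2 * (e1 * e2)) ^ 2 = 4 * (e1 ^ 2 * e2 ^ 2) := by ring
    have h5 : e1 ^ 2 * e2 ^ 2 ≤ (l1 * a1 * b) * (l2 * a2 * b) :=
      mul_le_mul h1 h2 (sq_nonneg _) (by positivity)
    have h6 : 4 * ((l1 * a1 * b) * (l2 * a2 * b)) = 4 * ((l1 * a2 * b) * (l2 * a1 * b)) := by ring
    have h7 : 4 * ((l1 * a2 * b) * (l2 * a1 * b)) ≤ (l1 * a2 * b + l2 * a1 * b) ^ 2 := by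
      nlinarith [sq_nonneg (l1 * a2 * b - l2 * a1 * b)]
    linarith
  have h8 : 2 * (e1 * e2) ≤ l1 * a2 * b + l2 * a1 * b :=
    abs_le_of_sq_le_sq' h3 (by positivity) |>.2
  nlinarith

/-- Khrapchenko's inequality -/
lemma khrapchenko (f : Fml N) : ∀ A B : Finset (Fin N → Bool), (∀ x ∈ A, f.val x = true) →
    (∀ x ∈ B, f.val x = false) → (edges A B : ℝ) ^ 2 ≤ f.leaves * A.card * B.card := by
  induction f with
  | lit i s =>
    intro A B hA hB
    have h1 : ∀ p ∈ ((A ×ˢ (univ : Finset (Fin N))).filter fun p => toggle p.2 p.1 ∈ B),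
        p.2 = i := by
      intro p hp
      rw [mem_filter, mem_product] at hp
      by_contra hne
      have h2 := hA _ hp.1.1
      have h3 := hB _ hp.2
      unfold Fml.val at h2 h3
      unfold toggle at h3
      rw [Function.update_of_ne (fun h => hne h.symm)] at h3
      rw [h2] at h3
      exact absurd h3 (by simp)
    have hEA : edges A B ≤ A.card := by
      unfold edges
      refine card_le_card_of_injOn (fun p => p.1) ?_ ?_
      · intro p hp
        rw [mem_coe, mem_filter, mem_product] at hp
        exact hp.1.1
      · intro p hp q hq hpq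
        have e1 := h1 p hp
        have e2 := h1 q hq
        exact Prod.ext hpq (e1.trans e2.symm)
    have hEB : edges A B ≤ B.card := by
      unfold edges
      refine card_le_card_of_injOn (fun p => toggle p.2 p.1) ?_ ?_
      · intro p hp
        rw [mem_coe, mem_filter, mem_product] at hp
        exact hp.2
      · intro p hp q hq hpq
        have e1 := h1 p hp
        have e2 := h1 q hq
        have e3 : toggle i p.1 = toggle i q.1 := by
          have : toggle p.2 p.1 = toggle q.2 q.1 := hpq
          rwa [e1, e2] at this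
        have e4 : p.1 = q.1 := by
          rw [← toggle_toggle i p.1, e3, toggle_toggle]
        exact Prod.ext e4 (e1.trans e2.symm)
    have h2 : edges A B * edges A B ≤ A.card * B.card := Nat.mul_le_mul hEA hEB
    have h3 : ((edges A B * edges A B : ℕ) : ℝ) ≤ ((A.card * B.card : ℕ) : ℝ) := by
      exact_mod_cast h2
    push_cast at h3
    show (edges A B : ℝ) ^ 2 ≤ ((1 : ℕ) : ℝ) * A.card * B.card
    rw [sq, Nat.cast_one, one_mul]
    exact h3
  | const c =>
    intro A B hA hB
    have h1 : edges A B = 0 := by
      unfold edges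
      rw [card_eq_zero, filter_eq_empty_iff]
      intro p hp h2
      rw [mem_product] at hp
      have h3 : c = true := hA _ hp.1
      have h4 : c = false := hB _ h2
      rw [h3] at h4
      exact absurd h4 (by simp)
    rw [h1]
    simp [Fml.leaves]
  | and f g ihf ihg =>
    intro A B hA hB
    have hBs : B = B.filter (fun x => f.val x = false) ∪ B.filter (fun x => ¬ f.val x = false) :=
      (filter_union_filter_not_eq _ B).symm
    have hd : Disjoint (B.filter (fun x => f.val x = false))
        (B.filter (fun x => ¬ f.val x = false)) := disjoint_filter_filter_not _ _ _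
    have h1 := ihf A (B.filter (fun x => f.val x = false))
      (fun x hx => by
        have := hA x hx
        simp only [Fml.val, Bool.and_eq_true] at this
        exact this.1) (fun x hx => (mem_filter.mp hx).2)
    have h2 := ihg A (B.filter (fun x => ¬ f.val x = false))
      (fun x hx => by
        have := hA x hx
        simp only [Fml.val, Bool.and_eq_true] at this
        exact this.2) (fun x hx => by
        have h3 := mem_filter.mp hx
        have h4 := hB x h3.1
        simp only [Fml.val] at h4
        have h5 : f.val x = true := by simpa using h3.2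
        rw [h5, Bool.true_and] at h4
        exact h4)
    have hc : B.card = (B.filter (fun x => f.val x = false)).card +
        (B.filter (fun x => ¬ f.val x = false)).card := by
      conv_lhs => rw [hBs]
      rw [card_union_of_disjoint hd]
    have he : edges A B = edges A (B.filter (fun x => f.val x = false)) +
        edges A (B.filter (fun x => ¬ f.val x = false)) := by
      conv_lhs => rw [hBs]
      rw [edges_union_right _ _ _ hd]
    rw [he, hc]
    push_cast
    show _ ≤ ((f.leaves + g.leaves : ℕ) : ℝ) * _ * _
    push_cast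
    have h3 := cs (b := (A.card : ℝ)) (e1 := (edges A (B.filter (fun x => f.val x = false)) : ℝ))
      (e2 := (edges A (B.filter (fun x => ¬ f.val x = false)) : ℝ)) (l1 := (f.leaves : ℝ))
      (l2 := (g.leaves : ℝ)) (a1 := ((B.filter (fun x => f.val x = false)).card : ℝ))
      (a2 := ((B.filter (fun x => ¬ f.val x = false)).card : ℝ)) (by linarith) (by linarith)
      (Nat.cast_nonneg _) (Nat.cast_nonneg _) (Nat.cast_nonneg _) (Nat.cast_nonneg _)
      (Nat.cast_nonneg _)
    linarith
  | or f g ihf ihg =>
    intro A B hA hB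
    have hAs : A = A.filter (fun x => f.val x = true) ∪ A.filter (fun x => ¬ f.val x = true) :=
      (filter_union_filter_not_eq _ A).symm
    have hd : Disjoint (A.filter (fun x => f.val x = true))
        (A.filter (fun x => ¬ f.val x = true)) := disjoint_filter_filter_not _ _ _
    have h1 := ihf (A.filter (fun x => f.val x = true)) B
      (fun x hx => (mem_filter.mp hx).2) (fun x hx => by
        have := hB x hx
        simp only [Fml.val, Bool.or_eq_false_iff] at this
        exact this.1)
    have h2 := ihg (A.filter (fun x => ¬ f.val x = true)) B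
      (fun x hx => by
        have h3 := mem_filter.mp hx
        have h4 := hA x h3.1
        simp only [Fml.val] at h4
        have h5 : f.val x = false := by simpa using h3.2
        rw [h5, Bool.false_or] at h4
        exact h4) (fun x hx => by
        have := hB x hx
        simp only [Fml.val, Bool.or_eq_false_iff] at this
        exact this.2)
    have hc : A.card = (A.filter (fun x => f.val x = true)).card +
        (A.filter (fun x => ¬ f.val x = true)).card := by
      conv_lhs => rw [hAs]
      rw [card_union_of_disjoint hd]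
    have he : edges A B = edges (A.filter (fun x => f.val x = true)) B +
        edges (A.filter (fun x => ¬ f.val x = true)) B := by
      conv_lhs => rw [hAs]
      rw [edges_union_left _ _ _ hd]
    rw [he, hc]
    push_cast
    show _ ≤ ((f.leaves + g.leaves : ℕ) : ℝ) * _ * _
    push_cast
    exact cs h1 h2 (Nat.cast_nonneg _) (Nat.cast_nonneg _) (Nat.cast_nonneg _)
      (Nat.cast_nonneg _) (Nat.cast_nonneg _)

/-- the sensitivity of a formula -/
lemma sens_fml (f : Fml N) : (sens f.val : ℝ) ^ 2 ≤ f.leaves * ones f.val * 2 ^ N := by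
  have h1 := khrapchenko f (univ.filter fun x => f.val x = true)
    (univ.filter fun x => f.val x = false) (fun x hx => (mem_filter.mp hx).2)
    (fun x hx => (mem_filter.mp hx).2)
  have h2 : edges (univ.filter fun x => f.val x = true) (univ.filter fun x => f.val x = false) =
      sens f.val := by
    unfold edges sens
    congr 1
    ext p
    simp only [mem_filter, mem_product, mem_univ, true_and, and_true]
  rw [h2] at h1
  refine h1.trans ?_
  apply mul_le_mul_of_nonneg_left _ (by positivity)
  have h3 : (univ.filter fun x : Fin N → Bool => f.val x = false).card ≤ 2 ^ N := by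
    have := card_le_univ (univ.filter fun x : Fin N → Bool => f.val x = false)
    rwa [Fintype.card_fun, Fintype.card_fin, Fintype.card_bool] at this
  exact_mod_cast h3

end Pool.Agent.Q226.SEN
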