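import Mathlib

/-!
# Reductions to gap problems: definitions

`T` is a finite type of possible constraints; an instance is a subset of `T`, given by its indicator
`g : T → Bool`. `Λ` is the type of the labellings (strategies); `S ℓ e` means that the labelling `ℓ`
satisfies the constraint `e`.
-/

set_option autoImplicit false

namespace Pool.Agent.Q226.SEN

open Finset
open scoped Classical

variable {N k : ℕ} {T : Type} [Fintype T] {Λ : Type}

/-- change the bit `i` -/
def toggle (i : Fin N) (x : Fin N → Bool) : Fin N → Bool := Function.update x i (!x i)

/-- the parity of `x` -/
noncomputable def par (x : Fin N → Bool) : Bool :=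
  decide (Odd (univ.filter fun i => x i = true).card)

/-- the number of the constraints of the instance `g` -/
noncomputable def size (g : T → Bool) : ℕ := (univ.filter fun e => g e = true).card

/-- the number of the constraints of the instance `g` which the labelling `ℓ` satisfies -/
noncomputable def sat (S : Λ → T → Prop) (g : T → Bool) (ℓ : Λ) : ℕ :=
  (univ.filter fun e => g e = true ∧ S ℓ e).card

/-- The sensitivity of a function at its ones: the number of the pairs of an input at which the
function `b` has the value `1` and a bit whose change makes the value `0`. -/
noncomputable def sens (b : (Fin N → Bool) → Bool) : ℕ :=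
  (univ.filter fun p : (Fin N → Bool) × Fin N => b p.1 = true ∧ b (toggle p.2 p.1) = false).card

/-- The oracle `O` is right on the instances with `m` constraints: it answers `1` if some labelling
satisfies at least `a * m` constraints, and `0` if every labelling satisfies at most `b * m`
constraints; its other answers are arbitrary. -/
def Consistent (S : Λ → T → Prop) (a b : ℝ) (m : ℕ) (O : (T → Bool) → Bool) : Prop :=
  ∀ g, size g = m → ((∃ ℓ, a * m ≤ sat S g ℓ) → O g = true) ∧
    ((∀ ℓ, (sat S g ℓ : ℝ) ≤ b * m) → O g = false)

/-- A randomised nonadaptive reduction with advantage `γ` from parity to the gap problem: for the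
random choice `ρ` and the input `x` the queries are the instances `query ρ j x`, `j < k`, and the
output is an arbitrary function `eval ρ` of the answers; for every right oracle and every input the
output is the parity of `x` with probability at least `1 / 2 + γ` over `ρ`. -/
def Reduces (S : Λ → T → Prop) (a b : ℝ) (m : ℕ) {R : Type} [Fintype R]
    (query : R → Fin k → (Fin N → Bool) → T → Bool) (eval : R → (Fin k → Bool) → Bool) (γ : ℝ) :
    Prop :=
  ∀ O, Consistent S a b m O → ∀ x, (1 / 2 + γ) * Fintype.card R ≤
    ((univ.filter fun ρ => eval ρ (fun j => O (query ρ j x)) = par x).card : ℝ)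

/-- The function `b` is unate: for every bit, `b` is nondecreasing or nonincreasing in this bit. -/
def Unate (b : (Fin N → Bool) → Bool) : Prop :=
  ∃ σ : Fin N → Bool, ∀ x i, x i ≠ σ i → b x = true → b (toggle i x) = true

/-- formulas with AND and OR gates over the literals (and constants) -/
inductive Fml (N : ℕ) : Type
  /-- the bit `i`, or its negation -/
  | lit (i : Fin N) (s : Bool)
  | const (c : Bool)
  | and (f g : Fml N)
  | or (f g : Fml N)

/-- the value -/
def Fml.val : Fml N → (Fin N → Bool) → Bool
  | .lit i s, x => x i == s
  | .const c, _ => c
  | .and f g, x => f.val x && g.val x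
  | .or f g, x => f.val x || g.val x

/-- the number of the leaves that are literals -/
def Fml.leaves : Fml N → ℕ
  | .lit _ _ => 1
  | .const _ => 0
  | .and f g => f.leaves + g.leaves
  | .or f g => f.leaves + g.leaves

end Pool.Agent.Q226.SEN
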