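import Pool.Agent.Q226.SEN.Bounds

/-! # Reductions to gap problems: the consequences of the law -/

set_option autoImplicit false

namespace Pool.Agent.Q226.SEN

open Finset
open scoped Classical

variable {N k : ℕ} {T : Type} [Fintype T] {Λ : Type}

/-- few sensitive bits -/
theorem few_main (S : Λ → T → Prop) {a b : ℝ} (hb : 0 ≤ b) (hab : b ≤ a) {m : ℕ} (hm : 1 ≤ m)
    {R : Type} [Fintype R] [Nonempty R]
    (query : R → Fin k → (Fin N → Bool) → T → Bool) (eval : R → (Fin k → Bool) → Bool) (γ : ℝ)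
    (hsize : ∀ ρ j x, size (query ρ j x) = m) (hred : Reduces S a b m query eval γ) (s : ℕ)
    (hs : ∀ ρ j x e, query ρ j x e = true →
      (univ.filter fun i => query ρ j (toggle i x) e = false).card ≤ s) :
    2 * γ * (a - b) * N ≤ k * s := by
  have h1 := law S hb hab m query eval γ hsize hred
  have h2 : ∑ ρ : R, ∑ j : Fin k, ∑ e, (sens (fun x => query ρ j x e) : ℝ) ≤
      ∑ _ρ : R, ∑ _j : Fin k, s * (m * 2 ^ N : ℝ) := by
    refine sum_le_sum fun ρ _ => sum_le_sum fun j _ => ?_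
    have h3 : ∑ e, sens (fun x => query ρ j x e) ≤ ∑ e, s * ones (fun x => query ρ j x e) :=
      sum_le_sum fun e _ => sens_le_few _ fun x hx => hs ρ j x e hx
    rw [← mul_sum, sum_ones (query ρ j) (hsize ρ j)] at h3
    exact_mod_cast h3
  rw [sum_const, sum_const, card_univ, card_univ, Fintype.card_fin, nsmul_eq_mul, nsmul_eq_mul]
    at h2
  have hR : (0 : ℝ) < Fintype.card R := by exact_mod_cast Fintype.card_pos
  have hmR : (0 : ℝ) < m := by exact_mod_cast hm
  have hpos : (0 : ℝ) < m * 2 ^ N * Fintype.card R := by positivity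
  have h4 : 2 * γ * (a - b) * N * (m * 2 ^ N * Fintype.card R) ≤
      k * s * (m * 2 ^ N * Fintype.card R) := by
    have := h1.trans h2
    linarith
  exact le_of_mul_le_mul_right h4 hpos

/-- unate bits -/
theorem unate_main (S : Λ → T → Prop) {a b : ℝ} (hb : 0 ≤ b) (hab : b ≤ a) {m : ℕ} (hm : 1 ≤ m)
    {R : Type} [Fintype R] [Nonempty R]
    (query : R → Fin k → (Fin N → Bool) → T → Bool) (eval : R → (Fin k → Bool) → Bool) (γ : ℝ)
    (hγ : 0 ≤ γ)
    (hsize : ∀ ρ j x, size (query ρ j x) = m) (hred : Reduces S a b m query eval γ)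
    (hu : ∀ ρ j e, Unate fun x => query ρ j x e) :
    2 * (γ * (a - b)) ^ 2 * N ≤ k ^ 2 * Real.log (Fintype.card T / m) := by
  have h1 := law S hb hab m query eval γ hsize hred
  have hR : (0 : ℝ) < Fintype.card R := by exact_mod_cast Fintype.card_pos
  have hmR : (0 : ℝ) < m := by exact_mod_cast hm
  have hpos : (0 : ℝ) < m * 2 ^ N * Fintype.card R := by positivity
  have hab' : 0 ≤ a - b := by linarith
  rcases Nat.eq_zero_or_pos k with hk | hk
  · -- no queries
    subst hk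
    have h3 : 2 * γ * (a - b) * N * m * 2 ^ N * Fintype.card R ≤ 0 := by
      refine h1.trans (le_of_eq ?_)
      simp
    have h4 : (2 * γ * (a - b) * N) * (m * 2 ^ N * Fintype.card R) ≤ 0 := by linarith
    have h5 : 2 * γ * (a - b) * N ≤ 0 := by
      by_contra hcon
      push Not at hcon
      have := mul_pos hcon hpos
      linarith
    have h6 : 0 ≤ γ * (a - b) := mul_nonneg hγ hab'
    have h7 : 0 ≤ γ * (a - b) * N := by positivity
    have h8 : 2 * (γ * (a - b)) ^ 2 * N = 2 * (γ * (a - b)) * (γ * (a - b) * N) := by ring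
    have h9 : γ * (a - b) * N = 0 := by linarith
    rw [h8, h9]
    simp
  have hkR : (0 : ℝ) < k := by exact_mod_cast hk
  obtain ⟨t, ht⟩ : ∃ t : ℝ, t = 2 * (γ * (a - b)) / k := ⟨_, rfl⟩
  have ht0 : 0 ≤ t := by rw [ht]; positivity
  have h2 : t * ∑ ρ : R, ∑ j : Fin k, ∑ e, (sens (fun x => query ρ j x e) : ℝ) ≤
      ∑ _ρ : R, ∑ _j : Fin k,
        (Real.log (Fintype.card T / m) + t ^ 2 * N / 2) * (m * 2 ^ N : ℝ) := by
    rw [mul_sum]
    refine sum_le_sum fun ρ _ => ?_
    rw [mul_sum]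
    refine sum_le_sum fun j _ => ?_
    exact unate_sum (query ρ j) hm (hsize ρ j) (hu ρ j) ht0
  rw [sum_const, sum_const, card_univ, card_univ, Fintype.card_fin, nsmul_eq_mul, nsmul_eq_mul]
    at h2
  have h3 := mul_le_mul_of_nonneg_left h1 ht0
  have h4 : (t * (2 * (γ * (a - b)) * N)) * (m * 2 ^ N * Fintype.card R) ≤
      (k * (Real.log (Fintype.card T / m) + t ^ 2 * N / 2)) * (m * 2 ^ N * Fintype.card R) := by
    have := h3.trans h2
    linarith
  have h5 := le_of_mul_le_mul_right h4 hpos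
  have h6 : 2 * (γ * (a - b)) = k * t := by rw [ht]; field_simp
  rw [h6] at h5
  have h7 : 2 * (γ * (a - b)) ^ 2 * N = (k * t) ^ 2 * N / 2 := by rw [← h6]; ring
  rw [h7]
  have h8 : k * (t * (k * t * N)) ≤ k * (k * (Real.log (Fintype.card T / m) + t ^ 2 * N / 2)) :=
    mul_le_mul_of_nonneg_left h5 hkR.le
  nlinarith

/-- formulas -/
theorem fml_main (S : Λ → T → Prop) {a b : ℝ} (hb : 0 ≤ b) (hab : b ≤ a) {m : ℕ} (hm : 1 ≤ m)
    {R : Type} [Fintype R] [Nonempty R]
    (query : R → Fin k → (Fin N → Bool) → T → Bool) (eval : R → (Fin k → Bool) → Bool) (γ : ℝ)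
    (hγ : 0 ≤ γ)
    (hsize : ∀ ρ j x, size (query ρ j x) = m) (hred : Reduces S a b m query eval γ)
    (F : R → Fin k → T → Fml N) (hF : ∀ ρ j x e, (F ρ j e).val x = query ρ j x e) :
    4 * (γ * (a - b)) ^ 2 * N ^ 2 * m * Fintype.card R ≤
      k * ∑ ρ, ∑ j, ∑ e, ((F ρ j e).leaves : ℝ) := by
  have h1 := law S hb hab m query eval γ hsize hred
  have hR : (0 : ℝ) < Fintype.card R := by exact_mod_cast Fintype.card_pos
  have hmR : (0 : ℝ) < m := by exact_mod_cast hm
  have hpos : (0 : ℝ) < m * 4 ^ N * Fintype.card R := by positivity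
  have hab' : 0 ≤ a - b := by linarith
  have hval : ∀ ρ j e, (fun x => query ρ j x e) = (F ρ j e).val := by
    intro ρ j e
    funext x
    exact (hF ρ j x e).symm
  -- the triples
  have hL : ∀ ρ j e, (sens (fun x => query ρ j x e) : ℝ) ≤
      Real.sqrt ((F ρ j e).leaves) * Real.sqrt (ones (fun x => query ρ j x e) * 2 ^ N) := by
    intro ρ j e
    rw [← Real.sqrt_mul (Nat.cast_nonneg _)]
    apply Real.le_sqrt_of_sq_le
    have := sens_fml (F ρ j e)
    rw [← hval] at this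
    linarith
  have h2 : ∑ t : R × Fin k × T, (sens (fun x => query t.1 t.2.1 x t.2.2) : ℝ) ≤
      ∑ t : R × Fin k × T, Real.sqrt ((F t.1 t.2.1 t.2.2).leaves) *
        Real.sqrt (ones (fun x => query t.1 t.2.1 x t.2.2) * 2 ^ N) :=
    sum_le_sum fun t _ => hL t.1 t.2.1 t.2.2
  have h3 := Finset.sum_mul_sq_le_sq_mul_sq (univ : Finset (R × Fin k × T))
    (fun t => Real.sqrt ((F t.1 t.2.1 t.2.2).leaves))
    (fun t => Real.sqrt (ones (fun x => query t.1 t.2.1 x t.2.2) * 2 ^ N))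
  have h4 : ∑ t : R × Fin k × T, Real.sqrt ((F t.1 t.2.1 t.2.2).leaves) ^ 2 =
      ∑ ρ, ∑ j, ∑ e, ((F ρ j e).leaves : ℝ) := by
    rw [Fintype.sum_prod_type]
    refine sum_congr rfl fun ρ _ => ?_
    rw [Fintype.sum_prod_type]
    refine sum_congr rfl fun j _ => sum_congr rfl fun e _ => ?_
    exact Real.sq_sqrt (Nat.cast_nonneg _)
  have h5 : ∑ t : R × Fin k × T, Real.sqrt (ones (fun x => query t.1 t.2.1 x t.2.2) * 2 ^ N) ^ 2 =
      Fintype.card R * k * m * 4 ^ N := by
    rw [Fintype.sum_prod_type]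
    have h6 : ∀ ρ : R, ∑ t : Fin k × T,
        Real.sqrt (ones (fun x => query ρ t.1 x t.2) * 2 ^ N) ^ 2 = k * (m * 4 ^ N) := by
      intro ρ
      rw [Fintype.sum_prod_type]
      have h7 : ∀ j : Fin k, ∑ e, Real.sqrt (ones (fun x => query ρ j x e) * 2 ^ N) ^ 2 =
          m * 4 ^ N := by
        intro j
        have h8 : ∀ e, Real.sqrt (ones (fun x => query ρ j x e) * 2 ^ N) ^ 2 =
            ones (fun x => query ρ j x e) * 2 ^ N := fun e => Real.sq_sqrt (by positivity)
        rw [sum_congr rfl fun e _ => h8 e, ← sum_mul]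
        have h9 : ∑ e, (ones (fun x => query ρ j x e) : ℝ) = m * 2 ^ N := by
          exact_mod_cast sum_ones (query ρ j) (hsize ρ j)
        rw [h9, mul_assoc, ← mul_pow]
        norm_num
      rw [sum_congr rfl fun j _ => h7 j, sum_const, card_univ, Fintype.card_fin, nsmul_eq_mul]
    rw [sum_congr rfl fun ρ _ => h6 ρ, sum_const, card_univ, nsmul_eq_mul]
    ring
  rw [h4, h5] at h3
  have h6 : ∑ ρ, ∑ j, ∑ e, (sens (fun x => query ρ j x e) : ℝ) =
      ∑ t : R × Fin k × T, (sens (fun x => query t.1 t.2.1 x t.2.2) : ℝ) := by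
    rw [Fintype.sum_prod_type]
    refine sum_congr rfl fun ρ _ => ?_
    rw [Fintype.sum_prod_type]
  rw [h6] at h1
  have h7 := h1.trans h2
  have h8 : 0 ≤ 2 * γ * (a - b) * N * m * 2 ^ N * Fintype.card R := by positivity
  have h9 := (pow_le_pow_left₀ h8 h7 2).trans h3
  have h10 : (2 * γ * (a - b) * N * m * 2 ^ N * Fintype.card R) ^ 2 =
      (4 * (γ * (a - b)) ^ 2 * N ^ 2 * m * Fintype.card R) * (m * 4 ^ N * Fintype.card R) := by
    have : (4 : ℝ) ^ N = 2 ^ N * 2 ^ N := by rw [← mul_pow]; norm_num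
    rw [this]
    ring
  rw [h10] at h9
  refine le_of_mul_le_mul_right ?_ hpos
  refine h9.trans (le_of_eq ?_)
  ring

end Pool.Agent.Q226.SEN
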