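import Pool.Agent.Q226.SEN.Law

/-! # The formulas of size `N ^ 2` for parity, and deterministic many-one reductions -/

set_option autoImplicit false

namespace Pool.Agent.Q226.SEN

open Finset
open scoped Classical

variable {N k : ℕ} {T : Type} [Fintype T] {Λ : Type}

/-- the formula which says that the parity of a block of `2 ^ q` bits is `s` -/
def pf (v : ℕ → Fin N) : ℕ → ℕ → Bool → Fml N
  | 0, o, s => .lit (v o) s
  | q + 1, o, s => .or (.and (pf v q o true) (pf v q (o + 2 ^ q) (!s)))
      (.and (pf v q o false) (pf v q (o + 2 ^ q) s))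

lemma pf_leaves (v : ℕ → Fin N) (q o : ℕ) (s : Bool) : (pf v q o s).leaves = 4 ^ q := by
  induction q generalizing o s with
  | zero => rfl
  | succ q ih =>
    show ((pf v q o true).leaves + (pf v q (o + 2 ^ q) (!s)).leaves) +
      ((pf v q o false).leaves + (pf v q (o + 2 ^ q) s).leaves) = _
    rw [ih, ih, ih, ih]
    ring

/-- the parity of a block -/
noncomputable def bp (v : ℕ → Fin N) (x : Fin N → Bool) (q o : ℕ) : Bool :=
  decide (Odd ((range (2 ^ q)).filter fun j => x (v (o + j)) = true).card)

lemma bp_succ (v : ℕ → Fin N) (x : Fin N → Bool) (q o : ℕ) :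
    bp v x (q + 1) o = xor (bp v x q o) (bp v x q (o + 2 ^ q)) := by
  have h1 : ((range (2 ^ (q + 1))).filter fun j => x (v (o + j)) = true).card =
      ((range (2 ^ q)).filter fun j => x (v (o + j)) = true).card +
      ((range (2 ^ q)).filter fun j => x (v (o + 2 ^ q + j)) = true).card := by
    rw [card_filter, card_filter, card_filter, pow_succ, mul_two, sum_range_add]
    congr 1
    refine sum_congr rfl fun j _ => ?_
    rw [add_assoc]
  unfold bp
  rw [h1]
  by_cases ha : Odd ((range (2 ^ q)).filter fun j => x (v (o + j)) = true).card <;>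
    by_cases hb : Odd ((range (2 ^ q)).filter fun j => x (v (o + 2 ^ q + j)) = true).card
  · have : ¬ Odd (((range (2 ^ q)).filter fun j => x (v (o + j)) = true).card +
      ((range (2 ^ q)).filter fun j => x (v (o + 2 ^ q + j)) = true).card) := by
      rw [Nat.not_odd_iff_even]
      exact ha.add_odd hb
    simp [ha, hb, this]
  · have : Odd (((range (2 ^ q)).filter fun j => x (v (o + j)) = true).card +
      ((range (2 ^ q)).filter fun j => x (v (o + 2 ^ q + j)) = true).card) :=
      ha.add_even (Nat.not_odd_iff_even.mp hb)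
    simp [ha, hb, this]
  · have : Odd (((range (2 ^ q)).filter fun j => x (v (o + j)) = true).card +
      ((range (2 ^ q)).filter fun j => x (v (o + 2 ^ q + j)) = true).card) :=
      (Nat.not_odd_iff_even.mp ha).add_odd hb
    simp [ha, hb, this]
  · have : ¬ Odd (((range (2 ^ q)).filter fun j => x (v (o + j)) = true).card +
      ((range (2 ^ q)).filter fun j => x (v (o + 2 ^ q + j)) = true).card) := by
      rw [Nat.not_odd_iff_even]
      exact (Nat.not_odd_iff_even.mp ha).add (Nat.not_odd_iff_even.mp hb)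
    simp [ha, hb, this]

lemma pf_val (v : ℕ → Fin N) (x : Fin N → Bool) (q o : ℕ) (s : Bool) :
    (pf v q o s).val x = (bp v x q o == s) := by
  induction q generalizing o s with
  | zero =>
    show (x (v o) == s) = _
    congr 1
    unfold bp
    rw [pow_zero, range_one, filter_singleton]
    cases x (v o) <;> simp
  | succ q ih =>
    show ((pf v q o true).val x && (pf v q (o + 2 ^ q) (!s)).val x ||
      (pf v q o false).val x && (pf v q (o + 2 ^ q) s).val x) = _
    rw [ih, ih, ih, ih, bp_succ]
    cases bp v x q o <;> cases bp v x q (o + 2 ^ q) <;> cases s <;> rfl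

/-- the index map -/
def vidx (q : ℕ) : ℕ → Fin (2 ^ q) := fun j => ⟨j % 2 ^ q, Nat.mod_lt _ (by positivity)⟩

lemma bp_par (q : ℕ) (x : Fin (2 ^ q) → Bool) : bp (vidx q) x q 0 = par x := by
  unfold bp par
  congr 2
  refine card_bij' (fun j _ => vidx q j) (fun i _ => i.val) ?_ ?_ ?_ ?_
  · intro j hj
    rw [mem_filter] at hj ⊢
    rw [zero_add] at hj
    exact ⟨mem_univ _, hj.2⟩
  · intro i hi
    rw [mem_filter] at hi ⊢
    refine ⟨mem_range.mpr i.isLt, ?_⟩
    have h1 : vidx q (0 + i.val) = i := by
      unfold vidx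
      ext
      simp [Nat.mod_eq_of_lt i.isLt]
    rw [h1]
    exact hi.2
  · intro j hj
    rw [mem_filter, mem_range] at hj
    show j % 2 ^ q = j
    exact Nat.mod_eq_of_lt hj.1
  · intro i _
    unfold vidx
    ext
    simp [Nat.mod_eq_of_lt i.isLt]

/-- the formula for the parity of `2 ^ q` bits -/
def parF (q : ℕ) (s : Bool) : Fml (2 ^ q) := pf (vidx q) q 0 s

lemma parF_val (q : ℕ) (s : Bool) (x : Fin (2 ^ q) → Bool) : (parF q s).val x = (par x == s) := by
  unfold parF
  rw [pf_val, bp_par]

lemma parF_leaves (q : ℕ) (s : Bool) : (parF q s).leaves = (2 ^ q) ^ 2 := by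
  unfold parF
  rw [pf_leaves, ← pow_mul, mul_comm, pow_mul]
  norm_num

/-- deterministic many-one reductions -/
lemma many_one (S : Λ → T → Prop) {a b : ℝ} {m : ℕ} (q : (Fin N → Bool) → T → Bool)
    (hs : ∀ x, size (q x) = m) (hyes : ∀ x, par x = false → ∃ ℓ, a * m ≤ sat S (q x) ℓ)
    (hno : ∀ x, par x = true → ∀ ℓ, (sat S (q x) ℓ : ℝ) ≤ b * m) :
    Reduces (k := 1) S a b m (fun (_ : Unit) _ => q) (fun _ u => !u 0) (1 / 2) := by
  intro O hO x
  have h1 := hO (q x) (hs x)
  have h2 : (!O (q x)) = par x := by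
    cases hp : par x
    · rw [h1.1 (hyes x hp)]
      rfl
    · rw [h1.2 (hno x hp)]
      rfl
  have h3 : (univ.filter fun _ρ : Unit => (!O (q x)) = par x) = univ := by
    ext ρ
    simp [h2]
  show (1 / 2 + 1 / 2) * ((Fintype.card Unit : ℕ) : ℝ) ≤ _
  rw [h3, card_univ]
  norm_num

end Pool.Agent.Q226.SEN
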