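import Pool.Agent.Q226.SEN.UG

/-! # Projection games: optimal reductions, and three-colourability without a gap -/

set_option autoImplicit false

namespace Pool.Agent.Q226.SEN

open Finset
open scoped Classical

/-- The labelling `ℓ = (L, M)` satisfies the constraint `e` of a projection game: the map `π e` maps
the label of the vertex `src e` to the label of the vertex `tgt e`. -/
def ProjSat {T U V A B : Type} (src : T → U) (tgt : T → V) (π : T → A → B)
    (ℓ : (U → A) × (V → B)) (e : T) : Prop :=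
  π e (ℓ.1 (src e)) = ℓ.2 (tgt e)

/-- the reduction by formulas -/
theorem proj_fml_upper (q p : ℕ) (hp : 1 ≤ p) :
    ∃ (T A : Type) (_ : Fintype T) (src tgt : T → Unit) (π : T → A → A)
      (g : (Fin (2 ^ q) → Bool) → T → Bool) (F : T → Fml (2 ^ q)),
      Nat.card A = p ∧ (∀ e, Function.Bijective (π e)) ∧ (∀ x, size (g x) = p) ∧
      (∀ e x, (F e).val x = g x e) ∧
      Reduces (k := 1) (ProjSat src tgt π) 1 (1 / p) p (fun (_ : Unit) _ => g)
        (fun _ u => !u 0) (1 / 2) ∧
      ∑ e, (F e).leaves = 2 * p * (2 ^ q) ^ 2 := by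
  obtain ⟨T, A, _, src, tgt, perm, g, F, h1, h2, h3, h4, h5⟩ := fml_upper q p hp
  exact ⟨T, A, _, src, tgt, fun e => perm e, g, F, h1, fun e => (perm e).bijective, h2, h3, h4, h5⟩

/-- the reduction with unate bits -/
theorem proj_unate_upper (N p : ℕ) (hp : 1 ≤ p) :
    ∃ (T A : Type) (_ : Fintype T) (src tgt : T → Unit) (π : T → A → A)
      (g : (Fin N → Bool) → T → Bool),
      Nat.card A = p ∧ (∀ e, Function.Bijective (π e)) ∧ Fintype.card T = 2 ^ N * p ∧
      (∀ x, size (g x) = p) ∧ (∀ e, Unate fun x => g x e) ∧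
      Reduces (k := 1) (ProjSat src tgt π) 1 (1 / p) p (fun (_ : Unit) _ => g)
        (fun _ u => !u 0) (1 / 2) := by
  obtain ⟨T, A, _, src, tgt, perm, g, h1, h2, h3, h4, h5⟩ := unate_upper N p hp
  exact ⟨T, A, _, src, tgt, fun e => perm e, g, h1, fun e => (perm e).bijective, h2, h3, h4, h5⟩

/-! ### Three-colourability -/

/-- the pairs of vertices -/
abbrev Pr (n : ℕ) : Type := {p : Fin n × Fin n // p.1 < p.2}

/-- the possible constraints -/
abbrev CT (n : ℕ) : Type := Option (Pr n × Bool)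

/-- the first vertex of a constraint: a pair -/
def cSrc {n : ℕ} : CT n → Option (Pr n)
  | none => none
  | some (p, _) => some p

/-- the second vertex of a constraint: a member of the pair -/
def cTgt {n : ℕ} : CT n → Option (Fin n)
  | none => none
  | some (p, false) => some p.1.1
  | some (p, true) => some p.1.2

/-- the maps: the label `(c, i)` of a pair is the pair of colours `c` and `c + 1 + i` -/
def cMap {n : ℕ} : CT n → Fin 3 × Fin 2 → Fin 3
  | none, a => a.1
  | some (_, false), a => a.1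
  | some (_, true), a => a.1 + 1 + Fin.castSucc a.2

/-- the constraints of the game of a graph -/
noncomputable def cG {n : ℕ} (G : SimpleGraph (Fin n)) : CT n → Bool
  | none => true
  | some (p, _) => decide (G.Adj p.1.1 p.1.2)

lemma cMap_fibre {n : ℕ} (e : CT n) (c : Fin 3) :
    (univ.filter fun a => cMap e a = c).card = 2 := by
  rcases e with _ | ⟨p, _ | _⟩
  · show (univ.filter fun a : Fin 3 × Fin 2 => a.1 = c).card = 2
    revert c
    decide
  · show (univ.filter fun a : Fin 3 × Fin 2 => a.1 = c).card = 2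
    revert c
    decide
  · show (univ.filter fun a : Fin 3 × Fin 2 => a.1 + 1 + Fin.castSucc a.2 = c).card = 2
    revert c
    decide

lemma two_colours : ∀ c c' : Fin 3, c ≠ c' → ∃ i : Fin 2, c + 1 + Fin.castSucc i = c' := by decide

lemma colours_ne : ∀ (c : Fin 3) (i : Fin 2), c ≠ c + 1 + Fin.castSucc i := by decide

theorem colour_iff {n : ℕ} (G : SimpleGraph (Fin n)) :
    G.Colorable 3 ↔ ∃ ℓ : (Option (Pr n) → Fin 3 × Fin 2) × (Option (Fin n) → Fin 3),
      ∀ e, cG G e = true → ProjSat cSrc cTgt cMap ℓ e := by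
  constructor
  · rintro ⟨C⟩
    have hex : ∀ p : Pr n, ∃ i : Fin 2, G.Adj p.1.1 p.1.2 →
        C p.1.1 + 1 + Fin.castSucc i = C p.1.2 := by
      intro p
      by_cases h : G.Adj p.1.1 p.1.2
      · obtain ⟨i, hi⟩ := two_colours (C p.1.1) (C p.1.2) (C.valid h)
        exact ⟨i, fun _ => hi⟩
      · exact ⟨0, fun h' => absurd h' h⟩
    choose f hf using hex
    refine ⟨(fun o => match o with
      | none => (0, 0)
      | some p => (C p.1.1, f p), fun o => match o with
      | none => 0
      | some v => C v), ?_⟩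
    rintro (_ | ⟨p, _ | _⟩) he
    · rfl
    · rfl
    · have h1 : G.Adj p.1.1 p.1.2 := by
        have : decide (G.Adj p.1.1 p.1.2) = true := he
        simpa using this
      exact hf p h1
  · rintro ⟨ℓ, h⟩
    have hval : ∀ u v : Fin n, u < v → G.Adj u v → ℓ.2 (some u) ≠ ℓ.2 (some v) := by
      intro u v huv hadj
      have h1 := h (some (⟨(u, v), huv⟩, false)) (by
        show decide (G.Adj u v) = true
        simpa using hadj)
      have h2 := h (some (⟨(u, v), huv⟩, true)) (by
        show decide (G.Adj u v) = true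
        simpa using hadj)
      have e1 : (ℓ.1 (some ⟨(u, v), huv⟩)).1 = ℓ.2 (some u) := h1
      have e2 : (ℓ.1 (some ⟨(u, v), huv⟩)).1 + 1 +
        Fin.castSucc (ℓ.1 (some ⟨(u, v), huv⟩)).2 = ℓ.2 (some v) := h2
      rw [← e1, ← e2]
      exact colours_ne _ _
    refine ⟨SimpleGraph.Coloring.mk (fun v => ℓ.2 (some v)) ?_⟩
    intro u v hadj
    rcases lt_trichotomy u v with huv | huv | huv
    · exact hval u v huv hadj
    · subst huv
      exact absurd hadj (G.irrefl)
    · exact (hval v u huv hadj.symm).symm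

/-- the reduction from three-colourability -/
theorem three_colour (n : ℕ) :
    ∃ (T U V : Type) (_ : Fintype T) (src : T → U) (tgt : T → V) (π : T → Fin 3 × Fin 2 → Fin 3)
      (pair : T → Option (Fin n × Fin n)) (g : SimpleGraph (Fin n) → T → Bool),
      (∀ e c, (univ.filter fun a => π e a = c).card = 2) ∧
      (∀ G, 1 ≤ size (g G)) ∧
      (∀ e G, g G e = true ↔ ∀ q, pair e = some q → G.Adj q.1 q.2) ∧
      ∀ G, G.Colorable 3 ↔ ∃ ℓ, ∀ e, g G e = true → ProjSat src tgt π ℓ e := by
  refine ⟨CT n, Option (Pr n), Option (Fin n), inferInstance, cSrc, cTgt, cMap,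
    fun e => e.map fun t => t.1.1, cG, cMap_fibre, ?_, ?_, colour_iff⟩
  · intro G
    unfold size
    rw [Nat.one_le_iff_ne_zero, ← Nat.pos_iff_ne_zero, card_pos]
    exact ⟨none, mem_filter.mpr ⟨mem_univ _, rfl⟩⟩
  · rintro (_ | ⟨p, b⟩) G
    · simp [cG]
    · simp [cG]

/-- the reduction from three-colourability, with the same six labels on both sides -/
theorem three_colour_same (n : ℕ) :
    ∃ (T U V : Type) (_ : Fintype T) (src : T → U) (tgt : T → V)
      (π : T → Fin 3 × Fin 2 → Fin 3 × Fin 2)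
      (pair : T → Option (Fin n × Fin n)) (g : SimpleGraph (Fin n) → T → Bool),
      (∀ e c, (univ.filter fun a => π e a = c).card ≤ 2) ∧
      (∀ G, 1 ≤ size (g G)) ∧
      (∀ e G, g G e = true ↔ ∀ q, pair e = some q → G.Adj q.1 q.2) ∧
      ∀ G, G.Colorable 3 ↔ ∃ ℓ, ∀ e, g G e = true → ProjSat src tgt π ℓ e := by
  obtain ⟨T, U, V, _, src, tgt, π, pair, g, h1, h2, h3, h4⟩ := three_colour n
  refine ⟨T, U, V, _, src, tgt, fun e a => (π e a, 0), pair, g, ?_, h2, h3, ?_⟩
  · rintro e ⟨c, i⟩
    refine le_trans (card_le_card ?_) (h1 e c).le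
    intro a ha
    simp only [mem_filter, mem_univ, true_and, Prod.mk.injEq] at ha ⊢
    exact ha.1
  · intro G
    rw [h4 G]
    constructor
    · rintro ⟨ℓ, h⟩
      refine ⟨(ℓ.1, fun v => (ℓ.2 v, 0)), fun e he => ?_⟩
      have h5 : π e (ℓ.1 (src e)) = ℓ.2 (tgt e) := h e he
      show (π e (ℓ.1 (src e)), (0 : Fin 2)) = (ℓ.2 (tgt e), 0)
      rw [h5]
    · rintro ⟨ℓ, h⟩
      refine ⟨(ℓ.1, fun v => (ℓ.2 v).1), fun e he => ?_⟩
      have h5 : (π e (ℓ.1 (src e)), (0 : Fin 2)) = ℓ.2 (tgt e) := h e he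
      show π e (ℓ.1 (src e)) = (ℓ.2 (tgt e)).1
      rw [← h5]

end Pool.Agent.Q226.SEN
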