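import Pool.Agent.Q226.SEN.Proj

/-! # Three-colourability as a `d`-to-1 game without a gap -/

set_option autoImplicit false

namespace Pool.Agent.Q226.SEN

open Finset
open scoped Classical

variable {d : ℕ}

/-- the shift of the colour -/
def sh (i : Fin d) : Fin 3 := if i.val % 2 = 0 then 1 else 2

/-- the maps: the label `(c, i)` of a pair is the pair of colours `c` and `c + sh i` -/
def dMap {n : ℕ} : CT n → Fin 3 × Fin d → Fin 3
  | none, a => a.1
  | some (_, false), a => a.1
  | some (_, true), a => a.1 + sh a.2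

lemma fibre_fst (c : Fin 3) : (univ.filter fun a : Fin 3 × Fin d => a.1 = c).card = d := by
  have h1 : (univ.filter fun a : Fin 3 × Fin d => a.1 = c).card =
      (univ : Finset (Fin d)).card := by
    refine card_bij' (fun a _ => a.2) (fun i _ => (c, i)) ?_ ?_ ?_ ?_
    · intro a _
      exact mem_univ _
    · intro i _
      simp
    · intro a ha
      rw [mem_filter] at ha
      exact Prod.ext ha.2.symm rfl
    · intro i _
      rfl
  rw [h1, card_univ, Fintype.card_fin]

lemma fibre_snd (c : Fin 3) :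
    (univ.filter fun a : Fin 3 × Fin d => a.1 + sh a.2 = c).card = d := by
  have h1 : (univ.filter fun a : Fin 3 × Fin d => a.1 + sh a.2 = c).card =
      (univ : Finset (Fin d)).card := by
    refine card_bij' (fun a _ => a.2) (fun i _ => (c - sh i, i)) ?_ ?_ ?_ ?_
    · intro a _
      exact mem_univ _
    · intro i _
      simp
    · intro a ha
      rw [mem_filter] at ha
      refine Prod.ext ?_ rfl
      show c - sh a.2 = a.1
      rw [← ha.2, add_sub_cancel_right]
    · intro i _
      rfl
  rw [h1, card_univ, Fintype.card_fin]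

lemma dMap_fibre {n : ℕ} (e : CT n) (c : Fin 3) :
    (univ.filter fun a : Fin 3 × Fin d => dMap e a = c).card = d := by
  rcases e with _ | ⟨p, _ | _⟩
  · exact fibre_fst c
  · exact fibre_fst c
  · exact fibre_snd c

lemma shift_ex : ∀ c c' : Fin 3, c ≠ c' → c + 1 = c' ∨ c + 2 = c' := by decide

lemma sh_ne (c : Fin 3) (i : Fin d) : c ≠ c + sh i := by
  unfold sh
  have h1 : ∀ c : Fin 3, c ≠ c + 1 ∧ c ≠ c + 2 := by decide
  split_ifs
  · exact (h1 c).1
  · exact (h1 c).2

theorem dcolour_iff (hd : 2 ≤ d) {n : ℕ} (G : SimpleGraph (Fin n)) :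
    G.Colorable 3 ↔ ∃ ℓ : (Option (Pr n) → Fin 3 × Fin d) × (Option (Fin n) → Fin 3),
      ∀ e, cG G e = true → ProjSat cSrc cTgt dMap ℓ e := by
  constructor
  · rintro ⟨C⟩
    have hex : ∀ p : Pr n, ∃ i : Fin d, G.Adj p.1.1 p.1.2 →
        C p.1.1 + sh i = C p.1.2 := by
      intro p
      by_cases h : G.Adj p.1.1 p.1.2
      · rcases shift_ex (C p.1.1) (C p.1.2) (C.valid h) with h1 | h1
        · exact ⟨⟨0, by omega⟩, fun _ => h1⟩
        · exact ⟨⟨1, by omega⟩, fun _ => h1⟩
      · exact ⟨⟨0, by omega⟩, fun h' => absurd h' h⟩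
    choose f hf using hex
    refine ⟨(fun o => match o with
      | none => (0, ⟨0, by omega⟩)
      | some p => (C p.1.1, f p), fun o => match o with
      | none => 0
      | some v => C v), ?_⟩
    rintro (_ | ⟨p, _ | _⟩) he
    · rfl
    · rfl
    · have h1 : G.Adj p.1.1 p.1.2 := by
        have : decide (G.Adj p.1.1 p.1.2) = true := he
        simpa using this
      exact hf p h1
  · rintro ⟨ℓ, h⟩
    have hval : ∀ u v : Fin n, u < v → G.Adj u v → ℓ.2 (some u) ≠ ℓ.2 (some v) := by
      intro u v huv hadj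
      have h1 := h (some (⟨(u, v), huv⟩, false)) (by
        show decide (G.Adj u v) = true
        simpa using hadj)
      have h2 := h (some (⟨(u, v), huv⟩, true)) (by
        show decide (G.Adj u v) = true
        simpa using hadj)
      have e1 : (ℓ.1 (some ⟨(u, v), huv⟩)).1 = ℓ.2 (some u) := h1
      have e2 : (ℓ.1 (some ⟨(u, v), huv⟩)).1 + sh (ℓ.1 (some ⟨(u, v), huv⟩)).2 =
        ℓ.2 (some v) := h2
      rw [← e1, ← e2]
      exact sh_ne _ _
    refine ⟨SimpleGraph.Coloring.mk (fun v => ℓ.2 (some v)) ?_⟩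
    intro u v hadj
    rcases lt_trichotomy u v with huv | huv | huv
    · exact hval u v huv hadj
    · subst huv
      exact absurd hadj (G.irrefl)
    · exact (hval v u huv hadj.symm).symm

/-- the reduction from three-colourability -/
theorem three_colour_d (d : ℕ) (hd : 2 ≤ d) (n : ℕ) :
    ∃ (T W V : Type) (_ : Fintype T) (w : T → W) (v : T → V) (π : T → Fin 3 × Fin d → Fin 3)
      (pair : T → Option (Fin n × Fin n)) (g : SimpleGraph (Fin n) → T → Bool),
      (∀ e c, (univ.filter fun a => π e a = c).card = d) ∧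
      (∀ G, 1 ≤ size (g G)) ∧
      (∀ e G, g G e = true ↔ ∀ q, pair e = some q → G.Adj q.1 q.2) ∧
      ∀ G, G.Colorable 3 ↔ ∃ ℓ, ∀ e, g G e = true → ProjSat w v π ℓ e := by
  refine ⟨CT n, Option (Pr n), Option (Fin n), inferInstance, cSrc, cTgt, dMap,
    fun e => e.map fun t => t.1.1, cG, dMap_fibre, ?_, ?_, dcolour_iff hd⟩
  · intro G
    unfold size
    rw [Nat.one_le_iff_ne_zero, ← Nat.pos_iff_ne_zero, card_pos]
    exact ⟨none, mem_filter.mpr ⟨mem_univ _, rfl⟩⟩
  · rintro (_ | ⟨p, b⟩) G
    · simp [cG]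
    · simp [cG]

end Pool.Agent.Q226.SEN
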