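import Pool.Agent.Q226.SEN.SSE
import Pool.Agent.Q226.SEN.Ac0

/-! # Small-set expansion: randomised nonadaptive reductions of small depth -/

set_option autoImplicit false

namespace Pool.Agent.Q226.SEN

open Finset DomAC0
open scoped Classical

/-- randomised reductions of small depth from parity to small-set expansion -/
theorem sse_ac0 (h : ℕ) : ∃ X0 : ℝ, ∀ (N k d s M : ℕ) (V R : Type) [Fintype V] [Fintype R]
    [Nonempty R] (ε η γ : ℝ) (C : R → Circuit (Fin N))
    (out : ∀ ρ, Fin k → V × V → Fin N ⊕ Fin (C ρ).size)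
    (query : R → Fin k → (Fin N → Bool) → SimpleGraph V) (eval : R → (Fin k → Bool) → Bool),
    0 ≤ η → ε + η < 1 → 0 < γ → 1 ≤ d → 1 ≤ s → 1 ≤ k → 0 < Fintype.card V →
    (∀ ρ, (C ρ).size ≤ M) → (∀ ρ j p, (C ρ).nodeDepth (out ρ j p) ≤ h) →
    (∀ ρ j x p, (C ρ).nodeVal x (out ρ j p) = adj (query ρ j x) p) →
    (∀ ρ j x, Regular (query ρ j x) d) → ReducesSSE d s ε η query eval γ →
    X0 ≤ γ * ((1 - ε - η) * (s / Fintype.card V)) * N / k →
    (2 : ℝ) ^ ((γ * ((1 - ε - η) * (s / Fintype.card V)) * N / k) ^ (1 / (h + 1 : ℝ)) / 100) ≤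
      k / (γ * ((1 - ε - η) * (s / Fintype.card V))) * M := by
  obtain ⟨X0, hX⟩ := ac0_main h
  refine ⟨X0, ?_⟩
  intro N k d s M V R _ _ _ ε η γ C out query eval hη hεη hγ hd hs hk hV hM hh hout hreg hred hX0
  have hVR : (0 : ℝ) < Fintype.card V := by exact_mod_cast hV
  have hsR : (0 : ℝ) < s := by exact_mod_cast hs
  have h1 := to_reduces hV query eval hred
  have hfun : (fun ρ j x => adj (query ρ j x)) =
      fun ρ j x p => (C ρ).nodeVal x (out ρ j p) := by
    funext ρ j x p
    exact (hout ρ j x p).symm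
  rw [hfun] at h1
  have hdiff : (1 - ε) * s / Fintype.card V - η * s / Fintype.card V =
      (1 - ε - η) * (s / Fintype.card V) := by ring
  have h2 := hX (Inside s) ((1 - ε) * s / Fintype.card V) (η * s / Fintype.card V) γ C out eval
    (by positivity) (by
      apply div_lt_div_of_pos_right _ hVR
      apply mul_lt_mul_of_pos_right _ hsR
      linarith) hγ (m := d * Fintype.card V) (Nat.mul_pos hd hV) hk hM hh
    (fun ρ j x => by
      have h3 : (fun e => (C ρ).nodeVal x (out ρ j e)) = adj (query ρ j x) :=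
        funext fun p => hout ρ j x p
      rw [h3]
      exact size_adj (hreg ρ j x)) h1
  rw [hdiff] at h2
  exact h2 hX0

end Pool.Agent.Q226.SEN
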