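import Pool.Agent.Q226.SEN.ParF
import Pool.Agent.Q226.SEN.Main

/-! # Unique games: optimal reductions, and the reduction without a gap -/

set_option autoImplicit false

namespace Pool.Agent.Q226.SEN

open Finset
open scoped Classical

variable {N k : ℕ}

/-- The labelling `ℓ = (L, M)` satisfies the constraint `e` of a unique game: the permutation maps
the label of the left vertex to the label of the right vertex. -/
def UGSat {T U V A : Type} (src : T → U) (tgt : T → V) (perm : T → Equiv.Perm A)
    (ℓ : (U → A) × (V → A)) (e : T) : Prop :=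
  perm e (ℓ.1 (src e)) = ℓ.2 (tgt e)

section shifts

variable {p : ℕ} [NeZero p]

/-- the permutations: shifts and identities -/
def sp {C : Type} (odd : C → Bool) (e : C × ZMod p) : Equiv.Perm (ZMod p) :=
  if odd e.1 = true then Equiv.addRight e.2 else Equiv.refl _

lemma sat_one {C : Type} [Fintype C] [DecidableEq C] (odd : C → Bool) (c : C)
    (ℓ : (Unit → ZMod p) × (Unit → ZMod p)) :
    sat (UGSat (fun _ => ()) (fun _ => ()) (sp odd)) (fun e : C × ZMod p => decide (e.1 = c)) ℓ =
      (univ.filter fun s : ZMod p => sp odd (c, s) (ℓ.1 ()) = ℓ.2 ()).card := by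
  unfold sat UGSat
  refine card_bij' (fun e _ => e.2) (fun s _ => (c, s)) ?_ ?_ ?_ ?_
  · intro e he
    simp only [mem_filter, mem_univ, true_and, decide_eq_true_eq] at he ⊢
    rw [← he.1]
    exact he.2
  · intro s hs
    simp only [mem_filter, mem_univ, true_and, decide_eq_true_eq] at hs ⊢
    exact hs
  · intro e he
    simp only [mem_filter, mem_univ, true_and, decide_eq_true_eq] at he
    exact Prod.ext he.1.symm rfl
  · intro s _
    rfl

lemma size_one {C : Type} [Fintype C] [DecidableEq C] (c : C) :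
    size (fun e : C × ZMod p => decide (e.1 = c)) = p := by
  unfold size
  have h1 : (univ.filter fun e : C × ZMod p => decide (e.1 = c) = true).card =
      (univ : Finset (ZMod p)).card := by
    refine card_bij' (fun e _ => e.2) (fun s _ => (c, s)) ?_ ?_ ?_ ?_
    · intro e _
      exact mem_univ _
    · intro s _
      simp
    · intro e he
      simp only [mem_filter, mem_univ, true_and, decide_eq_true_eq] at he
      exact Prod.ext he.symm rfl
    · intro s _
      rfl
  rw [h1, card_univ, ZMod.card]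

/-- identities are satisfied by equal labels -/
lemma shift_yes {C : Type} [Fintype C] [DecidableEq C] (odd : C → Bool) (c : C) (hc : odd c = false) :
    ∃ ℓ, (1 : ℝ) * p ≤ sat (UGSat (fun _ => ()) (fun _ => ()) (sp odd))
      (fun e : C × ZMod p => decide (e.1 = c)) ℓ := by
  refine ⟨(fun _ => 0, fun _ => 0), ?_⟩
  rw [sat_one]
  have h1 : (univ.filter fun s : ZMod p => sp odd (c, s) 0 = 0) = univ := by
    ext s
    simp [sp, hc]
  show (1 : ℝ) * p ≤ ((univ.filter fun s : ZMod p => sp odd (c, s) 0 = 0).card : ℝ)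
  rw [h1, card_univ, ZMod.card, one_mul]

/-- only one shift is satisfied -/
lemma shift_no {C : Type} [Fintype C] [DecidableEq C] (odd : C → Bool) (c : C) (hc : odd c = true)
    (ℓ : (Unit → ZMod p) × (Unit → ZMod p)) :
    (sat (UGSat (fun _ => ()) (fun _ => ()) (sp odd))
      (fun e : C × ZMod p => decide (e.1 = c)) ℓ : ℝ) ≤ 1 / p * p := by
  rw [sat_one]
  have h1 : (univ.filter fun s : ZMod p => sp odd (c, s) (ℓ.1 ()) = ℓ.2 ()).card ≤ 1 := by
    rw [card_le_one]
    intro s hs s' hs'
    simp only [mem_filter, mem_univ, true_and, sp, hc, if_true, Equiv.coe_addRight] at hs hs'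
    exact add_left_cancel (hs.trans hs'.symm)
  have hp : (p : ℝ) ≠ 0 := by exact_mod_cast NeZero.ne p
  rw [one_div, inv_mul_cancel₀ hp]
  exact_mod_cast h1

/-- the reduction by formulas -/
theorem fml_upper (q p : ℕ) (hp : 1 ≤ p) :
    ∃ (T A : Type) (_ : Fintype T) (src tgt : T → Unit) (perm : T → Equiv.Perm A)
      (g : (Fin (2 ^ q) → Bool) → T → Bool) (F : T → Fml (2 ^ q)),
      Nat.card A = p ∧ (∀ x, size (g x) = p) ∧ (∀ e x, (F e).val x = g x e) ∧
      Reduces (k := 1) (UGSat src tgt perm) 1 (1 / p) p (fun (_ : Unit) _ => g)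
        (fun _ u => !u 0) (1 / 2) ∧
      ∑ e, (F e).leaves = 2 * p * (2 ^ q) ^ 2 := by
  have : NeZero p := ⟨by omega⟩
  refine ⟨Bool × ZMod p, ZMod p, inferInstance, fun _ => (), fun _ => (), sp id,
    fun x e => decide (e.1 = par x), fun e => parF q e.1, Nat.card_zmod p,
    fun x => size_one (p := p) (par x), ?_, ?_, ?_⟩
  · intro e x
    rw [parF_val]
    show (par x == e.1) = decide (e.1 = par x)
    generalize par x = c
    generalize e.1 = d
    cases c <;> cases d <;> rfl
  · apply many_one
    · intro x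
      exact size_one (p := p) (par x)
    · intro x hx
      exact shift_yes (p := p) id (par x) hx
    · intro x hx ℓ
      exact shift_no (p := p) id (par x) hx ℓ
  · rw [Fintype.sum_prod_type]
    simp only [parF_leaves]
    rw [sum_const, sum_const, card_univ, card_univ, ZMod.card, Fintype.card_bool, smul_eq_mul,
      smul_eq_mul]
    ring

/-- the reduction with unate bits -/
theorem unate_upper (N p : ℕ) (hp : 1 ≤ p) :
    ∃ (T A : Type) (_ : Fintype T) (src tgt : T → Unit) (perm : T → Equiv.Perm A)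
      (g : (Fin N → Bool) → T → Bool),
      Nat.card A = p ∧ Fintype.card T = 2 ^ N * p ∧ (∀ x, size (g x) = p) ∧
      (∀ e, Unate fun x => g x e) ∧
      Reduces (k := 1) (UGSat src tgt perm) 1 (1 / p) p (fun (_ : Unit) _ => g)
        (fun _ u => !u 0) (1 / 2) := by
  have : NeZero p := ⟨by omega⟩
  refine ⟨(Fin N → Bool) × ZMod p, ZMod p, inferInstance, fun _ => (), fun _ => (), sp par,
    fun x e => decide (e.1 = x), Nat.card_zmod p, ?_, fun x => size_one (p := p) x, ?_, ?_⟩
  · rw [Fintype.card_prod, ZMod.card, Fintype.card_fun, Fintype.card_bool, Fintype.card_fin]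
  · intro e
    refine ⟨e.1, ?_⟩
    intro x i hx h
    exfalso
    have h1 : e.1 = x := by simpa using h
    exact hx (congrFun h1.symm i)
  · apply many_one
    · intro x
      exact size_one (p := p) x
    · intro x hx
      exact shift_yes (p := p) par x hx
    · intro x hx ℓ
      exact shift_no (p := p) par x hx ℓ

end shifts

/-- the bits of the cycle -/
def cyc {n : ℕ} (x : Fin (n + 1) → Bool) : Fin (n + 1) × Option Bool → Bool
  | (j, some true) => x j
  | (j, some false) => !x j
  | (_, none) => true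

/-- the formulas of the cycle -/
def cycF {n : ℕ} : Fin (n + 1) × Option Bool → Fml (n + 1)
  | (j, some true) => .lit j true
  | (j, some false) => .lit j false
  | (_, none) => .const true

/-- the left vertices -/
def cycSrc (n : ℕ) : Fin (n + 1) × Option Bool → Fin (n + 1)
  | (j, some _) => j
  | (j, none) => finRotate (n + 1) j

/-- the right vertices -/
def cycTgt (n : ℕ) : Fin (n + 1) × Option Bool → Fin (n + 1) := fun e => e.1

/-- the permutations -/
def cycPerm (n : ℕ) : Fin (n + 1) × Option Bool → Equiv.Perm (ZMod 2)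
  | (_, some true) => Equiv.addRight 1
  | (_, some false) => Equiv.refl _
  | (_, none) => Equiv.refl _

/-- a bit as an element of `ZMod 2` -/
def bz (b : Bool) : ZMod 2 := if b = true then 1 else 0

lemma cyc_size {n : ℕ} (x : Fin (n + 1) → Bool) : size (cyc x) = 2 * (n + 1) := by
  unfold size
  rw [card_filter, Fintype.sum_prod_type]
  have h1 : ∀ j : Fin (n + 1), ∑ o : Option Bool, (if cyc x (j, o) = true then 1 else 0) = 2 := by
    intro j
    rw [Fintype.sum_option, Fintype.sum_bool]
    have e1 : cyc x (j, none) = true := rfl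
    have e2 : cyc x (j, some true) = x j := rfl
    have e3 : cyc x (j, some false) = !x j := rfl
    rw [e1, e2, e3]
    cases x j <;> simp
  rw [sum_congr rfl fun j _ => h1 j, sum_const, card_univ, Fintype.card_fin, smul_eq_mul]
  ring

lemma cyc_sat {n : ℕ} (x : Fin (n + 1) → Bool)
    (ℓ : (Fin (n + 1) → ZMod 2) × (Fin (n + 1) → ZMod 2)) :
    sat (UGSat (cycSrc n) (cycTgt n) (cycPerm n)) (cyc x) ℓ =
      ∑ j, ((if ℓ.1 (finRotate (n + 1) j) = ℓ.2 j then 1 else 0) +
        if ℓ.1 j + bz (x j) = ℓ.2 j then 1 else 0) := by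
  unfold sat UGSat
  rw [card_filter, Fintype.sum_prod_type]
  refine sum_congr rfl fun j _ => ?_
  rw [Fintype.sum_option, Fintype.sum_bool]
  have e1 : cyc x (j, none) = true := rfl
  have e2 : cyc x (j, some true) = x j := rfl
  have e3 : cyc x (j, some false) = !x j := rfl
  simp only [e1, e2, e3]
  have f1 : cycPerm n (j, none) (ℓ.1 (cycSrc n (j, none))) = ℓ.1 (finRotate (n + 1) j) := rfl
  have f2 : cycPerm n (j, some true) (ℓ.1 (cycSrc n (j, some true))) = ℓ.1 j + 1 := rfl
  have f3 : cycPerm n (j, some false) (ℓ.1 (cycSrc n (j, some false))) = ℓ.1 j := rfl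
  have f4 : ∀ o, cycTgt n (j, o) = j := fun o => rfl
  rw [f1, f2, f3]
  simp only [f4, true_and]
  congr 1
  cases x j
  · simp [bz]
  · simp [bz]

lemma par_iff {n : ℕ} (x : Fin n → Bool) : par x = true ↔ ∑ j, bz (x j) = 1 := by
  have h1 : ∑ j, bz (x j) = (((univ.filter fun i => x i = true).card : ℕ) : ZMod 2) := by
    unfold bz
    rw [Finset.sum_boole]
  rw [h1, ZMod.natCast_eq_one_iff_odd]
  unfold par
  rw [decide_eq_true_eq]

lemma cyc_even {n : ℕ} (x : Fin (n + 1) → Bool) (hx : par x = false) :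
    ∃ ℓ, sat (UGSat (cycSrc n) (cycTgt n) (cycPerm n)) (cyc x) ℓ = 2 * (n + 1) := by
  have h0 : ∑ j, bz (x j) = 0 := by
    have h2 : ¬ ∑ j, bz (x j) = 1 := by
      rw [← par_iff, hx]
      simp
    have h1 : ∀ z : ZMod 2, z ≠ 1 → z = 0 := by decide
    exact h1 _ h2
  let L : Fin (n + 1) → ZMod 2 := fun j => ∑ i ∈ univ.filter (fun i => i < j), bz (x i)
  have hL : ∀ j, L (finRotate (n + 1) j) = L j + bz (x j) := by
    intro j
    have h2 : L j + bz (x j) = ∑ i ∈ univ.filter (fun i => i ≤ j), bz (x i) := by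
      have h3 : (univ.filter fun i : Fin (n + 1) => i ≤ j) =
          insert j (univ.filter fun i => i < j) := by
        ext i
        simp only [mem_filter, mem_univ, true_and, mem_insert]
        rw [le_iff_lt_or_eq]
        tauto
      rw [h3, sum_insert (by simp), add_comm]
    rw [h2]
    by_cases hj : j = Fin.last n
    · subst hj
      rw [finRotate_last]
      have h3 : (univ.filter fun i : Fin (n + 1) => i ≤ Fin.last n) = univ := by
        ext i
        simp [Fin.le_last]
      rw [h3, h0]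
      show ∑ i ∈ univ.filter (fun i : Fin (n + 1) => i < 0), bz (x i) = 0
      apply sum_eq_zero
      intro i hi
      rw [mem_filter] at hi
      exact absurd hi.2 (Fin.not_lt_zero i)
    · have hj' : j.val < n := by
        have := Fin.val_ne_of_ne hj
        have h4 := j.2
        simp only [Fin.val_last] at this
        omega
      show ∑ i ∈ univ.filter (fun i => i < finRotate (n + 1) j), bz (x i) = _
      refine sum_congr ?_ fun _ _ => rfl
      ext i
      simp only [mem_filter, mem_univ, true_and]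
      rw [Fin.lt_def, coe_finRotate_of_ne_last hj, Fin.le_def]
      omega
  refine ⟨(L, fun j => L (finRotate (n + 1) j)), ?_⟩
  rw [cyc_sat]
  have h1 : ∀ j : Fin (n + 1), ((if L (finRotate (n + 1) j) = L (finRotate (n + 1) j) then 1 else 0)
      + if L j + bz (x j) = L (finRotate (n + 1) j) then 1 else 0) = 2 := by
    intro j
    rw [if_pos rfl, if_pos (hL j).symm]
  rw [sum_congr rfl fun j _ => h1 j, sum_const, card_univ, Fintype.card_fin, smul_eq_mul]
  ring

lemma cyc_odd {n : ℕ} (x : Fin (n + 1) → Bool) (hx : par x = true)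
    (ℓ : (Fin (n + 1) → ZMod 2) × (Fin (n + 1) → ZMod 2)) :
    sat (UGSat (cycSrc n) (cycTgt n) (cycPerm n)) (cyc x) ℓ < 2 * (n + 1) := by
  rw [par_iff] at hx
  rw [cyc_sat]
  by_contra hcon
  push Not at hcon
  have h1 : ∀ j : Fin (n + 1), ((if ℓ.1 (finRotate (n + 1) j) = ℓ.2 j then 1 else 0) +
      if ℓ.1 j + bz (x j) = ℓ.2 j then 1 else 0) ≤ 2 := by
    intro j
    split_ifs <;> simp
  have h2 : ∑ j : Fin (n + 1), ((if ℓ.1 (finRotate (n + 1) j) = ℓ.2 j then 1 else 0) +
      if ℓ.1 j + bz (x j) = ℓ.2 j then 1 else 0) = ∑ _j : Fin (n + 1), 2 := by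
    refine le_antisymm (sum_le_sum fun j _ => h1 j) ?_
    rw [sum_const, card_univ, Fintype.card_fin, smul_eq_mul]
    omega
  have h3 := (Finset.sum_eq_sum_iff_of_le fun j (_ : j ∈ (univ : Finset (Fin (n + 1)))) => h1 j).mp h2
  have h4 : ∀ j, ℓ.1 (finRotate (n + 1) j) = ℓ.1 j + bz (x j) := by
    intro j
    have h5 := h3 j (mem_univ j)
    by_cases ha : ℓ.1 (finRotate (n + 1) j) = ℓ.2 j
    · by_cases hb : ℓ.1 j + bz (x j) = ℓ.2 j
      · rw [ha, hb]
      · rw [if_pos ha, if_neg hb] at h5
        omega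
    · rw [if_neg ha] at h5
      split_ifs at h5 <;> omega
  have h5 : ∑ j, ℓ.1 (finRotate (n + 1) j) = ∑ j, ℓ.1 j := Equiv.sum_comp (finRotate (n + 1)) ℓ.1
  rw [sum_congr rfl fun j _ => h4 j, sum_add_distrib, hx] at h5
  have h6 : ∀ z : ZMod 2, z + 1 ≠ z := by decide
  exact h6 _ h5

/-- the reduction without a gap -/
theorem no_gap (n : ℕ) :
    ∃ (T : Type) (_ : Fintype T) (src tgt : T → Fin (n + 1)) (perm : T → Equiv.Perm (ZMod 2))
      (g : (Fin (n + 1) → Bool) → T → Bool) (F : T → Fml (n + 1)),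
      Fintype.card T = 3 * (n + 1) ∧ (∀ x, size (g x) = 2 * (n + 1)) ∧
      (∀ e x, (F e).val x = g x e) ∧ (∀ e, (F e).leaves ≤ 1) ∧
      Reduces (k := 1) (UGSat src tgt perm) 1 (1 - 1 / (2 * (n + 1))) (2 * (n + 1))
        (fun (_ : Unit) _ => g) (fun _ u => !u 0) (1 / 2) := by
  refine ⟨Fin (n + 1) × Option Bool, inferInstance, cycSrc n, cycTgt n, cycPerm n, cyc, cycF,
    ?_, cyc_size, ?_, ?_, ?_⟩
  · rw [Fintype.card_prod, Fintype.card_fin, Fintype.card_option, Fintype.card_bool]
    ring
  · rintro ⟨j, (_ | _ | _)⟩ x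
    · rfl
    · show (x j == false) = !x j
      cases x j <;> rfl
    · show (x j == true) = x j
      cases x j <;> rfl
  · rintro ⟨j, (_ | _ | _)⟩ <;> simp [cycF, Fml.leaves]
  · apply many_one
    · exact cyc_size
    · intro x hx
      obtain ⟨ℓ, hℓ⟩ := cyc_even x hx
      refine ⟨ℓ, ?_⟩
      rw [hℓ, one_mul]
    · intro x hx ℓ
      have h1 := cyc_odd x hx ℓ
      have h2 : sat (UGSat (cycSrc n) (cycTgt n) (cycPerm n)) (cyc x) ℓ + 1 ≤ 2 * (n + 1) := h1
      have h3 : ((sat (UGSat (cycSrc n) (cycTgt n) (cycPerm n)) (cyc x) ℓ : ℕ) : ℝ) + 1 ≤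
          ((2 * (n + 1) : ℕ) : ℝ) := by exact_mod_cast h2
      push_cast at h3 ⊢
      have h4 : (1 - 1 / (2 * ((n : ℝ) + 1))) * (2 * (n + 1)) = 2 * (n + 1) - 1 := by
        field_simp
      rw [h4]
      linarith

end Pool.Agent.Q226.SEN
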